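import Pool.Agent.helper52.FC.Farkas

/-!
# Polytopes whose 1-skeleton is a tope graph, part 2: finite point configurations

`p : ι → V` is the family of the (homogenized) vertices; faces are given by linear functionals that
are nonnegative on all `p k`.
-/

set_option autoImplicit false

namespace Pool.Agent.helper52.FC

open Finset

variable {V : Type*} [AddCommGroup V] [Module ℝ V] {ι : Type*} [Fintype ι]

/-- `i` and `j` are the vertices of an edge. -/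
def Ed (p : ι → V) (i j : ι) : Prop :=
  i ≠ j ∧ ∃ c : V →ₗ[ℝ] ℝ, c (p i) = 0 ∧ c (p j) = 0 ∧ ∀ k, k ≠ i → k ≠ j → 0 < c (p k)

/-- `c` exposes the vertex `i`. -/
def Vt (p : ι → V) (i : ι) (c : V →ₗ[ℝ] ℝ) : Prop := c (p i) = 0 ∧ ∀ k, k ≠ i → 0 < c (p k)

omit [Fintype ι] in
theorem Ed.symm {p : ι → V} {i j : ι} (h : Ed p i j) : Ed p j i := by
  obtain ⟨hne, c, h1, h2, h3⟩ := h
  exact ⟨hne.symm, c, h2, h1, fun k hk hk' => h3 k hk' hk⟩

theorem dominate (A B : ι → ℝ) : ∃ N : ℝ, 0 < N ∧ ∀ k, 0 < A k → 0 < N * A k + B k := by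
  classical
  refine ⟨1 + ∑ k, |B k| / |A k|, ?_, fun k hk => ?_⟩
  · have : 0 ≤ ∑ k, |B k| / |A k| := Finset.sum_nonneg fun k _ => by positivity
    linarith
  · have h1 : |B k| / |A k| ≤ ∑ k, |B k| / |A k| :=
      Finset.single_le_sum (f := fun k => |B k| / |A k|) (fun k _ => by positivity)
        (Finset.mem_univ k)
    rw [abs_of_pos hk] at h1
    have h2 : |B k| ≤ (∑ k, |B k| / |A k|) * A k := by
      rwa [div_le_iff₀ hk] at h1
    have h3 := neg_abs_le (B k)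
    nlinarith

/-- one refinement step. -/
theorem step {p : ι → V} {i : ι} {l : V →ₗ[ℝ] ℝ} (hl : Vt p i l) {h g : V →ₗ[ℝ] ℝ} {J : Finset ι}
    (hJ : J.Nonempty) (hiJ : i ∉ J) (h0 : h (p i) = 0) (hJ0 : ∀ k ∈ J, h (p k) = 0)
    (hpos : ∀ k, k ∉ J → k ≠ i → 0 < h (p k)) (hg : g (p i) = 0) :
    ∃ (J' : Finset ι) (m : ℝ) (h' : V →ₗ[ℝ] ℝ), J' ⊆ J ∧ J'.Nonempty ∧
      (∀ k ∈ J', g (p k) = m * l (p k)) ∧ (∀ k ∈ J, m * l (p k) ≤ g (p k)) ∧
      (∀ k ∈ J, g (p k) = m * l (p k) → k ∈ J') ∧ h' (p i) = 0 ∧ (∀ k ∈ J', h' (p k) = 0) ∧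
      ∀ k, k ∉ J' → k ≠ i → 0 < h' (p k) := by
  classical
  have hl' : ∀ k ∈ J, 0 < l (p k) := fun k hk => hl.2 k (fun e => hiJ (e ▸ hk))
  obtain ⟨k₀, hk₀, hmin⟩ := Finset.exists_min_image J (fun k => g (p k) / l (p k)) hJ
  set m : ℝ := g (p k₀) / l (p k₀) with hm
  set J' : Finset ι := J.filter fun k => g (p k) = m * l (p k) with hJ'
  have hge : ∀ k ∈ J, m * l (p k) ≤ g (p k) := by
    intro k hk
    have h1 := hmin k hk
    rwa [le_div_iff₀ (hl' k hk)] at h1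
  obtain ⟨N, hN, hdom⟩ := dominate (fun k => h (p k)) (fun k => g (p k) - m * l (p k))
  refine ⟨J', m, N • h + (g - m • l), Finset.filter_subset _ _, ⟨k₀, ?_⟩, ?_, hge, ?_, ?_, ?_, ?_⟩
  · rw [hJ', Finset.mem_filter]
    refine ⟨hk₀, ?_⟩
    rw [hm, div_mul_cancel₀ _ (hl' k₀ hk₀).ne']
  · intro k hk
    exact (Finset.mem_filter.1 hk).2
  · intro k hk hk'
    exact Finset.mem_filter.2 ⟨hk, hk'⟩
  · simp [h0, hg, hl.1]
  · intro k hk
    obtain ⟨hk1, hk2⟩ := Finset.mem_filter.1 hk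
    simp [hJ0 k hk1, hk2]
  · intro k hk hki
    have h2 : (N • h + (g - m • l)) (p k) = N * h (p k) + (g (p k) - m * l (p k)) := by
      simp
    rw [h2]
    by_cases hkJ : k ∈ J
    · have h3 : m * l (p k) < g (p k) := by
        refine lt_of_le_of_ne (hge k hkJ) fun h4 => hk ?_
        exact Finset.mem_filter.2 ⟨hkJ, h4.symm⟩
      rw [hJ0 k hkJ]
      linarith
    · exact hdom k (hpos k hkJ hki)

/-- a functional that vanishes at `a` and not at `w`. -/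
theorem sep_dual {a w : V} (h : ∀ t : ℝ, w ≠ t • a) : ∃ g : V →ₗ[ℝ] ℝ, g a = 0 ∧ g w ≠ 0 := by
  have h1 : w ∉ Submodule.span ℝ {a} := by
    intro hw
    obtain ⟨t, ht⟩ := Submodule.mem_span_singleton.1 hw
    exact h t ht.symm
  obtain ⟨f, hf, hf'⟩ := Submodule.exists_le_ker_of_notMem h1
  exact ⟨f, LinearMap.mem_ker.1 (hf' (Submodule.mem_span_singleton_self a)), hf⟩

/-- an improving edge. -/
theorem improve {p : ι → V} (hV : ∀ i, ∃ c, Vt p i c) {c g : V →ₗ[ℝ] ℝ} (hc : ∀ k, 0 ≤ c (p k))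
    {i : ι} (hi : c (p i) = 0) (gi : g (p i) = 0) (hk : ∃ k, c (p k) = 0 ∧ g (p k) < 0) :
    ∃ k, c (p k) = 0 ∧ g (p k) < 0 ∧ Ed p i k := by
  classical
  obtain ⟨l, hl⟩ := hV i
  -- refinement to one element
  have key : ∀ n : ℕ, ∀ J : Finset ι, J.card = n → J.Nonempty → i ∉ J →
      (∀ k ∈ J, c (p k) = 0 ∧ g (p k) < 0) →
      (∃ h : V →ₗ[ℝ] ℝ, h (p i) = 0 ∧ (∀ k ∈ J, h (p k) = 0) ∧ ∀ k, k ∉ J → k ≠ i → 0 < h (p k)) →
      ∃ k, c (p k) = 0 ∧ g (p k) < 0 ∧ Ed p i k := by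
    intro n
    induction n using Nat.strong_induction_on with
    | _ n ih =>
      intro J hn hJ hiJ hcg ⟨h, h0, hJ0, hpos⟩
      by_cases h1 : ∃ k ∈ J, ∃ k' ∈ J, k ≠ k'
      · obtain ⟨k, hkJ, k', hkJ', hkk⟩ := h1
        have hki : k ≠ i := fun e => hiJ (e ▸ hkJ)
        have hki' : k' ≠ i := fun e => hiJ (e ▸ hkJ')
        have hlk := hl.2 k hki
        have hlk' := hl.2 k' hki'
        have hw : ∀ t : ℝ, l (p k') • p k - l (p k) • p k' ≠ t • p i := by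
          intro t ht
          obtain ⟨a, ha⟩ := hV k
          obtain ⟨a', ha'⟩ := hV k'
          have e1 := congrArg a ht
          have e2 := congrArg a' ht
          simp only [map_sub, map_smul, smul_eq_mul, ha.1, ha'.1, mul_zero, zero_sub, sub_zero]
            at e1 e2
          have f1 := mul_pos hlk (ha.2 k' hkk.symm)
          have f2 := mul_pos hlk' (ha'.2 k hkk)
          have f3 := ha.2 i hki.symm
          have f4 := ha'.2 i hki'.symm
          rcases le_or_gt t 0 with ht0 | ht0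
          · have := mul_nonpos_of_nonpos_of_nonneg ht0 f4.le
            linarith
          · have := mul_pos ht0 f3
            linarith
        obtain ⟨g₂, hg₂, hg₂'⟩ := sep_dual hw
        obtain ⟨J', m, h', hsub, hne, e1, e2, e3, e4, e5, e6⟩ :=
          step hl hJ hiJ h0 hJ0 hpos hg₂
        have hss : J' ⊂ J := by
          refine Finset.ssubset_iff_subset_ne.2 ⟨hsub, fun heq => hg₂' ?_⟩
          have u1 := e1 k (heq ▸ hkJ)
          have u2 := e1 k' (heq ▸ hkJ')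
          rw [map_sub, map_smul, map_smul, smul_eq_mul, smul_eq_mul, u1, u2]
          ring
        exact ih J'.card (hn ▸ Finset.card_lt_card hss) J' rfl hne (fun hi' => hiJ (hsub hi'))
          (fun k hk => hcg k (hsub hk)) ⟨h', e4, e5, e6⟩
      · push Not at h1
        obtain ⟨k, hkJ⟩ := hJ
        have hki : k ≠ i := fun e => hiJ (e ▸ hkJ)
        refine ⟨k, (hcg k hkJ).1, (hcg k hkJ).2, hki.symm, h, h0, hJ0 k hkJ, fun j hj hj' => ?_⟩
        exact hpos j (fun hjJ => hj' (h1 j hjJ k hkJ)) hj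
  -- the first step
  obtain ⟨k₀, hk₀, hg₀⟩ := hk
  have hk₀i : k₀ ≠ i := by
    rintro rfl
    rw [gi] at hg₀
    exact lt_irrefl _ hg₀
  set F : Finset ι := Finset.univ.filter fun k => k ≠ i ∧ c (p k) = 0 with hF
  have hFm : ∀ k, k ∈ F ↔ k ≠ i ∧ c (p k) = 0 := fun k => by simp [hF]
  obtain ⟨J', m, h', hsub, hne, e1, e2, e3, e4, e5, e6⟩ := step hl (J := F)
    ⟨k₀, (hFm k₀).2 ⟨hk₀i, hk₀⟩⟩ (fun h => ((hFm i).1 h).1 rfl) hi (fun k hk => ((hFm k).1 hk).2)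
    (fun k hk hki => lt_of_le_of_ne (hc k) fun h => hk ((hFm k).2 ⟨hki, h.symm⟩)) gi
  have hm : m < 0 := by
    have h1 := e2 k₀ ((hFm k₀).2 ⟨hk₀i, hk₀⟩)
    have h2 := hl.2 k₀ hk₀i
    by_contra hcon
    rw [not_lt] at hcon
    have := mul_nonneg hcon h2.le
    linarith
  refine key _ J' rfl hne (fun h => ((hFm i).1 (hsub h)).1 rfl) (fun k hk => ?_) ⟨h', e4, e5, e6⟩
  obtain ⟨h1, h2⟩ := (hFm k).1 (hsub hk)
  refine ⟨h2, ?_⟩
  rw [e1 k hk]
  exact mul_neg_of_neg_of_pos hm (hl.2 k h1)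

/-- a property which is invariant under the edges of a face is constant on its vertices. -/
theorem path {p : ι → V} (hV : ∀ i, ∃ c, Vt p i c) {n : V →ₗ[ℝ] ℝ} (hn : ∀ k, 0 < n (p k))
    {c : V →ₗ[ℝ] ℝ} (hc : ∀ k, 0 ≤ c (p k)) (S : ι → Prop)
    (hS : ∀ i k, c (p i) = 0 → c (p k) = 0 → Ed p i k → (S i ↔ S k)) :
    ∀ i j, c (p i) = 0 → c (p j) = 0 → (S i ↔ S j) := by
  classical
  intro i j hi hj
  obtain ⟨a, ha⟩ := hV j
  by_contra hcon
  set F : Finset ι := Finset.univ.filter fun i => c (p i) = 0 ∧ ¬ (S i ↔ S j) with hF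
  have hFm : ∀ k, k ∈ F ↔ c (p k) = 0 ∧ ¬ (S k ↔ S j) := fun k => by simp [hF]
  obtain ⟨k, hk, hmin⟩ := Finset.exists_min_image F (fun k => a (p k) / n (p k))
    ⟨i, (hFm i).2 ⟨hi, hcon⟩⟩
  obtain ⟨hk1, hk2⟩ := (hFm k).1 hk
  have hkj : k ≠ j := by
    rintro rfl
    exact hk2 Iff.rfl
  set m : ℝ := a (p k) / n (p k) with hm
  have hmpos : 0 < m := div_pos (ha.2 k hkj) (hn k)
  obtain ⟨k', hk'1, hk'2, hed⟩ := improve hV hc (g := a - m • n) hk1 (by
    rw [LinearMap.sub_apply, LinearMap.smul_apply, smul_eq_mul, hm, div_mul_cancel₀ _ (hn k).ne',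
      sub_self]) ⟨j, hj, by
    rw [LinearMap.sub_apply, LinearMap.smul_apply, smul_eq_mul, ha.1]
    have := mul_pos hmpos (hn j)
    linarith⟩
  have h1 : ¬ (S k' ↔ S j) := fun h => hk2 ((hS k k' hk1 hk'1 hed).trans h)
  have h2 := hmin k' ((hFm k').2 ⟨hk'1, h1⟩)
  rw [LinearMap.sub_apply, LinearMap.smul_apply, smul_eq_mul] at hk'2
  rw [le_div_iff₀ (hn k')] at h2
  linarith

end Pool.Agent.helper52.FC
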