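import Pool.Agent.helper52.FC.Signs

/-!
# Polytopes whose 1-skeleton is a tope graph, part 4: the sign patterns of the flat classes are those of
a central arrangement
-/

set_option autoImplicit false

namespace Pool.Agent.helper52.FC

open Finset

variable {V : Type*} [AddCommGroup V] [Module ℝ V] {ι : Type*} [Fintype ι]

theorem some_neg {p : ι → V} {z : V →ₗ[ℝ] ℝ} (hz : z (∑ k, p k) = 0) {w : V}
    (hw : w ∈ Submodule.span ℝ (Set.range p)) (hzw : z w ≠ 0) : ∃ j, z (p j) < 0 := by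
  by_contra hcon
  push Not at hcon
  rw [map_sum] at hz
  have h1 : ∀ k, z (p k) = 0 := fun k =>
    (Finset.sum_eq_zero_iff_of_nonneg fun i _ => hcon i).1 hz k (Finset.mem_univ k)
  apply hzw
  have h2 : Submodule.span ℝ (Set.range p) ≤ LinearMap.ker z := by
    rw [Submodule.span_le]
    rintro _ ⟨k, rfl⟩
    exact h1 k
  exact LinearMap.mem_ker.1 (h2 hw)

theorem push {p : ι → V} {y z : V →ₗ[ℝ] ℝ} (hy : ∀ k, 0 ≤ y (p k)) (hz : ∃ j, z (p j) < 0) :
    ∃ t : ℝ, 0 ≤ t ∧ ∃ j, (y + t • z) (p j) = 0 ∧ ∀ k, 0 ≤ (y + t • z) (p k) := by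
  classical
  obtain ⟨j₀, hj₀⟩ := hz
  set F : Finset ι := Finset.univ.filter fun k => z (p k) < 0 with hF
  have hFm : ∀ k, k ∈ F ↔ z (p k) < 0 := fun k => by simp [hF]
  obtain ⟨j, hj, hmin⟩ := Finset.exists_min_image F (fun k => y (p k) / -z (p k))
    ⟨j₀, (hFm j₀).2 hj₀⟩
  have hjz := (hFm j).1 hj
  refine ⟨y (p j) / -z (p j), div_nonneg (hy j) (by linarith), j, ?_, fun k => ?_⟩
  · rw [LinearMap.add_apply, LinearMap.smul_apply, smul_eq_mul]
    have h1 : -z (p j) ≠ 0 := by linarith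
    have h2 : y (p j) / -z (p j) * -z (p j) = y (p j) := div_mul_cancel₀ _ h1
    linarith
  · rw [LinearMap.add_apply, LinearMap.smul_apply, smul_eq_mul]
    rcases lt_or_ge (z (p k)) 0 with h | h
    · have h2 := hmin k ((hFm k).2 h)
      rw [le_div_iff₀ (by linarith)] at h2
      linarith
    · have h3 : 0 ≤ y (p j) / -z (p j) := div_nonneg (hy j) (by linarith)
      have := mul_nonneg h3 h
      linarith [hy k]

omit [Fintype ι] in
theorem limit {p : ι → V} (hV : ∀ i, ∃ c, Vt p i c) {y : V →ₗ[ℝ] ℝ} (hy : ∀ k, 0 ≤ y (p k))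
    {j : ι} (hj : y (p j) = 0) {w : V} (hw : ∀ c, Vt p j c → c w < 0) : y w ≤ 0 := by
  obtain ⟨c, hc⟩ := hV j
  by_contra hcon
  rw [not_le] at hcon
  set δ : ℝ := y w / (1 + |c w|) with hδ
  have h1 : 0 < 1 + |c w| := by positivity
  have hδ0 : 0 < δ := div_pos hcon h1
  have h2 := hw (y + δ • c) ⟨by simp [hj, hc.1], fun k hk => by
    rw [LinearMap.add_apply, LinearMap.smul_apply, smul_eq_mul]
    have := mul_pos hδ0 (hc.2 k hk)
    linarith [hy k]⟩
  rw [LinearMap.add_apply, LinearMap.smul_apply, smul_eq_mul] at h2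
  have h3 : δ * (1 + |c w|) = y w := by rw [hδ, div_mul_cancel₀ _ h1.ne']
  have h4 := neg_abs_le (c w)
  nlinarith

/-- every tope restricts to a sign pattern of the central arrangement. -/
theorem core_two {p : ι → V} (hV : ∀ i, ∃ c, Vt p i c) {F : Type*} {S : F → ι → Prop} {q : F → V}
    (hq : ∀ e i c, Vt p i c → (S e i → 0 < c (q e)) ∧ (¬ S e i → c (q e) < 0)) {neg : ι → ι}
    (hneg : ∀ e i, S e (neg i) ↔ ¬ S e i) (i : ι) :
    ∃ z : V →ₗ[ℝ] ℝ, z (∑ k, p k) = 0 ∧ ∀ e, (S e i → 0 < z (q e)) ∧ (¬ S e i → z (q e) < 0) := by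
  classical
  rcases isEmpty_or_nonempty F with hF | ⟨⟨e₀⟩⟩
  · exact ⟨0, by simp, fun e => (hF.false e).elim⟩
  · have hne : i ≠ neg i := by
      intro h
      have h1 := hneg e₀ i
      rw [← h] at h1
      by_cases h2 : S e₀ i
      · exact h1.1 h2 h2
      · exact h2 (h1.2 h2)
    obtain ⟨c, hc⟩ := hV i
    obtain ⟨d, hd⟩ := hV (neg i)
    have hpos : ∀ {i j : ι} {c : V →ₗ[ℝ] ℝ}, Vt p i c → j ≠ i → 0 < c (∑ k, p k) := by
      intro i j c hc hj
      rw [map_sum]
      refine Finset.sum_pos' (fun k _ => ?_) ⟨j, Finset.mem_univ j, hc.2 j hj⟩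
      by_cases hk : k = i
      · rw [hk, hc.1]
      · exact (hc.2 k hk).le
    have ha := hpos hc hne.symm
    have hb := hpos hd hne
    refine ⟨(d (∑ k, p k)) • c - (c (∑ k, p k)) • d, ?_, fun e => ⟨fun he => ?_, fun he => ?_⟩⟩
    · rw [LinearMap.sub_apply, LinearMap.smul_apply, LinearMap.smul_apply, smul_eq_mul,
        smul_eq_mul]
      ring
    · rw [LinearMap.sub_apply, LinearMap.smul_apply, LinearMap.smul_apply, smul_eq_mul,
        smul_eq_mul]
      have h1 := (hq e i c hc).1 he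
      have h2 := (hq e (neg i) d hd).2 (fun h => (hneg e i).1 h he)
      have h3 := mul_pos hb h1
      have h4 := mul_neg_of_pos_of_neg ha h2
      linarith
    · rw [LinearMap.sub_apply, LinearMap.smul_apply, LinearMap.smul_apply, smul_eq_mul,
        smul_eq_mul]
      have h1 := (hq e i c hc).2 he
      have h2 := (hq e (neg i) d hd).1 ((hneg e i).2 he)
      have h3 := mul_neg_of_pos_of_neg hb h1
      have h4 := mul_pos ha h2
      linarith

/-- every generic sign pattern of the central arrangement is the restriction of a tope. -/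
theorem core_three [Nonempty ι] {p : ι → V} (hV : ∀ i, ∃ c, Vt p i c) {n : V →ₗ[ℝ] ℝ}
    (hn : ∀ k, 0 < n (p k)) {F : Type*} [Finite F] {S : F → ι → Prop} {q : F → V}
    (hq : ∀ e i c, Vt p i c → (S e i → 0 < c (q e)) ∧ (¬ S e i → c (q e) < 0)) {neg : ι → ι}
    (hneg : ∀ e i, S e (neg i) ↔ ¬ S e i)
    (hspan : ∀ e, q e ∈ Submodule.span ℝ (Set.range p)) {z : V →ₗ[ℝ] ℝ} (hz : z (∑ k, p k) = 0)
    (hz0 : ∀ e, z (q e) ≠ 0) : ∃ i, ∀ e, (S e i ↔ 0 < z (q e)) := by
  classical
  have := Fintype.ofFinite F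
  by_contra hcon
  -- a minimal counterexample
  have hex : ∃ C : Finset F, ¬ ∃ i, ∀ e ∈ C, (S e i ↔ 0 < z (q e)) := ⟨Finset.univ, by
    simpa using hcon⟩
  obtain ⟨C, hC, hmin⟩ : ∃ C : Finset F, (¬ ∃ i, ∀ e ∈ C, (S e i ↔ 0 < z (q e))) ∧
      ∀ e ∈ C, ∃ i, ∀ e' ∈ C.erase e, (S e' i ↔ 0 < z (q e')) := by
    obtain ⟨C₀, hC₀⟩ := hex
    have key : ∀ m : ℕ, ∀ C : Finset F, C.card = m → (¬ ∃ i, ∀ e ∈ C, (S e i ↔ 0 < z (q e))) →
        ∃ C : Finset F, (¬ ∃ i, ∀ e ∈ C, (S e i ↔ 0 < z (q e))) ∧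
          ∀ e ∈ C, ∃ i, ∀ e' ∈ C.erase e, (S e' i ↔ 0 < z (q e')) := by
      intro m
      induction m using Nat.strong_induction_on with
      | _ m ih =>
        intro C hm hC
        by_cases h : ∀ e ∈ C, ∃ i, ∀ e' ∈ C.erase e, (S e' i ↔ 0 < z (q e'))
        · exact ⟨C, hC, h⟩
        · rw [not_forall] at h
          obtain ⟨e, he⟩ := h
          rw [Classical.not_imp] at he
          exact ih (C.erase e).card (hm ▸ Finset.card_erase_lt_of_mem he.1) (C.erase e) rfl he.2
    exact key _ C₀ rfl hC₀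
  set u : F → V := fun e => if 0 < z (q e) then q e else -q e with hu
  have hzu : ∀ e, 0 < z (u e) := by
    intro e
    simp only [hu]
    split_ifs with h
    · exact h
    · rw [map_neg]
      have := lt_of_le_of_ne (not_lt.1 h) (hz0 e)
      linarith
  have hcu : ∀ e i c, Vt p i c → ((S e i ↔ 0 < z (q e)) → 0 < c (u e)) ∧
      (¬ (S e i ↔ 0 < z (q e)) → c (u e) < 0) := by
    intro e i c hc
    obtain ⟨h1, h2⟩ := hq e i c hc
    simp only [hu]
    by_cases hs : 0 < z (q e)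
    · rw [if_pos hs]
      exact ⟨fun h => h1 (h.2 hs), fun h => h2 fun h' => h ⟨fun _ => hs, fun _ => h'⟩⟩
    · rw [if_neg hs, map_neg]
      refine ⟨fun h => ?_, fun h => ?_⟩
      · have := h2 fun h' => hs (h.1 h')
        linarith
      · have h3 : S e i := by
          by_contra h'
          exact h ⟨fun h'' => absurd h'' h', fun h'' => absurd h'' hs⟩
        have := h1 h3
        linarith
  have hCne : C.Nonempty := by
    by_contra h
    rw [Finset.not_nonempty_iff_eq_empty] at h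
    obtain ⟨i⟩ := ‹Nonempty ι›
    exact hC ⟨i, fun e he => by rw [h] at he; simp at he⟩
  obtain ⟨e₁, he₁⟩ := hCne
  have hsn : ∃ j, z (p j) < 0 := some_neg hz (hspan e₁) (hz0 e₁)
  have hsn' : ∃ j, (-z) (p j) < 0 := by
    refine some_neg (z := -z) (by rw [LinearMap.neg_apply, hz, neg_zero]) (hspan e₁) ?_
    rw [LinearMap.neg_apply]
    exact neg_ne_zero.2 (hz0 e₁)
  -- the two systems have no solution
  obtain ⟨b, a, hb, ha, ha1, hI⟩ := motzkin C p u (by
    rintro ⟨y, hy, hyu⟩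
    obtain ⟨t, ht, j, hj, hj'⟩ := push hy hsn
    apply hC
    refine ⟨j, fun e he => ?_⟩
    by_contra hne
    have h1 := limit hV hj' hj (w := u e) fun c hc => (hcu e j c hc).2 hne
    rw [LinearMap.add_apply, LinearMap.smul_apply, smul_eq_mul] at h1
    have h2 := mul_nonneg ht (hzu e).le
    have h3 := hyu e he
    linarith)
  obtain ⟨b', a', hb', ha', ha1', hII⟩ := motzkin C p (fun e => -u e) (by
    rintro ⟨y, hy, hyu⟩
    obtain ⟨t, ht, j, hj, hj'⟩ := push hy hsn'
    apply hC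
    refine ⟨neg j, fun e he => ?_⟩
    rw [hneg]
    by_contra hne
    have hne' : S e j ↔ 0 < z (q e) := by
      constructor
      · intro h
        by_contra h'
        exact hne ⟨fun h'' => absurd h h'', fun h'' => absurd h'' h'⟩
      · intro h
        by_contra h'
        exact hne ⟨fun _ => h, fun _ => h'⟩
    have h1 := limit hV hj' hj (w := -u e) fun c hc => by
      rw [map_neg]
      have := (hcu e j c hc).1 hne'
      linarith
    rw [LinearMap.add_apply, LinearMap.smul_apply, smul_eq_mul, LinearMap.neg_apply, map_neg,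
      map_neg] at h1
    have h2 := mul_nonneg ht (hzu e).le
    have h3 := hyu e he
    rw [map_neg] at h3
    linarith)
  -- elimination
  set C' : Finset F := C.filter fun e => 0 < a e with hC'
  have hC'm : ∀ e, e ∈ C' ↔ e ∈ C ∧ 0 < a e := fun e => Finset.mem_filter
  have hC'ne : C'.Nonempty := by
    by_contra h
    rw [Finset.not_nonempty_iff_eq_empty] at h
    have h1 : ∑ e ∈ C, a e = 0 := Finset.sum_eq_zero fun e he => by
      refine le_antisymm (not_lt.1 fun h2 => ?_) (ha e)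
      have h3 := (hC'm e).2 ⟨he, h2⟩
      rw [h] at h3
      simp at h3
    rw [h1] at ha1
    exact zero_ne_one ha1
  obtain ⟨e₀, he₀, hmin₀⟩ := Finset.exists_min_image C' (fun e => a' e / a e) hC'ne
  obtain ⟨he₀C, he₀a⟩ := (hC'm e₀).1 he₀
  set κ : ℝ := a' e₀ / a e₀ with hκ
  have hκ0 : 0 ≤ κ := div_nonneg (ha' e₀) he₀a.le
  have hA : ∀ e ∈ C, 0 ≤ a' e - κ * a e := by
    intro e he
    rcases eq_or_lt_of_le (ha e) with h | h
    · rw [← h, mul_zero, sub_zero]
      exact ha' e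
    · have h1 := hmin₀ e ((hC'm e).2 ⟨he, h⟩)
      rw [le_div_iff₀ h] at h1
      linarith
  have hA0 : a' e₀ - κ * a e₀ = 0 := by
    rw [hκ, div_mul_cancel₀ _ he₀a.ne', sub_self]
  have hsum : ∀ y : V →ₗ[ℝ] ℝ, ∑ e ∈ C, (a' e - κ * a e) * y (u e) =
      ∑ k, (b' k + κ * b k) * y (p k) := by
    intro y
    have h1 := hI y
    have h2 := hII y
    simp only [map_neg, mul_neg, Finset.sum_neg_distrib] at h2
    have h3 : ∑ e ∈ C, (a' e - κ * a e) * y (u e) =
        ∑ e ∈ C, a' e * y (u e) - κ * ∑ e ∈ C, a e * y (u e) := by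
      rw [Finset.mul_sum, ← Finset.sum_sub_distrib]
      exact Finset.sum_congr rfl fun e _ => by ring
    have h4 : ∑ k, (b' k + κ * b k) * y (p k) =
        ∑ k, b' k * y (p k) + κ * ∑ k, b k * y (p k) := by
      rw [Finset.mul_sum, ← Finset.sum_add_distrib]
      exact Finset.sum_congr rfl fun e _ => by ring
    rw [h3, h4]
    have h5 : ∑ e ∈ C, a' e * y (u e) = ∑ k, b' k * y (p k) := by linarith
    have h6 : ∑ e ∈ C, a e * y (u e) = -∑ k, b k * y (p k) := by linarith
    rw [h5, h6]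
    ring
  obtain ⟨i, hi⟩ := hmin e₀ he₀C
  obtain ⟨c, hc⟩ := hV (neg i)
  have hcneg : ∀ e ∈ C, e ≠ e₀ → c (u e) < 0 := by
    intro e he hne
    refine (hcu e (neg i) c hc).2 fun h => ?_
    have h1 := hi e (Finset.mem_erase.2 ⟨hne, he⟩)
    have h2 := hneg e i
    by_cases h3 : S e i
    · exact h2.1 (h.2 (h1.1 h3)) h3
    · exact h3 (h1.2 (h.1 (h2.2 h3)))
  have hc0 : ∀ k, 0 ≤ c (p k) := by
    intro k
    by_cases hk : k = neg i
    · rw [hk, hc.1]
    · exact (hc.2 k hk).le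
  have hterm : ∀ e ∈ C, (a' e - κ * a e) * c (u e) ≤ 0 := by
    intro e he
    by_cases hne : e = e₀
    · rw [hne, hA0, zero_mul]
    · exact mul_nonpos_of_nonneg_of_nonpos (hA e he) (hcneg e he hne).le
  have hBnn : ∀ k, 0 ≤ b' k + κ * b k := fun k => add_nonneg (hb' k) (mul_nonneg hκ0 (hb k))
  have hle : ∑ e ∈ C, (a' e - κ * a e) * c (u e) ≤ 0 := Finset.sum_nonpos hterm
  have hge : 0 ≤ ∑ k, (b' k + κ * b k) * c (p k) :=
    Finset.sum_nonneg fun k _ => mul_nonneg (hBnn k) (hc0 k)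
  have hzero : ∑ e ∈ C, (a' e - κ * a e) * c (u e) = 0 := by
    have := hsum c
    linarith
  have hAz : ∀ e ∈ C, a' e - κ * a e = 0 := by
    intro e he
    by_cases hne : e = e₀
    · rw [hne, hA0]
    · have h1 := (Finset.sum_eq_zero_iff_of_nonpos hterm).1 hzero e he
      exact (mul_eq_zero.1 h1).resolve_right (hcneg e he hne).ne
  have hBz : ∀ k, b' k + κ * b k = 0 := by
    intro k
    have h1 : ∑ k, (b' k + κ * b k) * n (p k) = 0 := by
      rw [← hsum n]
      exact Finset.sum_eq_zero fun e he => by rw [hAz e he, zero_mul]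
    have h2 := (Finset.sum_eq_zero_iff_of_nonneg fun k _ =>
      mul_nonneg (hBnn k) (hn k).le).1 h1 k (Finset.mem_univ k)
    exact (mul_eq_zero.1 h2).resolve_right (hn k).ne'
  have hb'z : ∀ k, b' k = 0 := by
    intro k
    have h1 := hBz k
    have h2 := hb' k
    have h3 := mul_nonneg hκ0 (hb k)
    linarith
  have hfin := hII z
  simp only [hb'z, zero_mul, Finset.sum_const_zero, zero_add, map_neg, mul_neg,
    Finset.sum_neg_distrib, neg_eq_zero] at hfin
  have ha'z : ∀ e ∈ C, a' e = 0 := by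
    intro e he
    have h1 := (Finset.sum_eq_zero_iff_of_nonneg fun e _ =>
      mul_nonneg (ha' e) (hzu e).le).1 hfin e he
    exact (mul_eq_zero.1 h1).resolve_right (hzu e).ne'
  rw [Finset.sum_eq_zero ha'z] at ha1'
  exact zero_ne_one ha1'

end Pool.Agent.helper52.FC
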