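import Mathlib

/-!
# Polytopes whose 1-skeleton is a tope graph: definitions
-/

set_option autoImplicit false

namespace Pool.Agent.helper52.FC

variable {E : Type}

/-- Composition of sign vectors. -/
def cmp (X Y : E → SignType) : E → SignType := fun e => if X e = 0 then Y e else X e

/-- The covector axioms of an oriented matroid. -/
structure IsOM (L : Set (E → SignType)) : Prop where
  zero : (fun _ => 0) ∈ L
  neg : ∀ X ∈ L, (fun e => -X e) ∈ L
  comp : ∀ X ∈ L, ∀ Y ∈ L, cmp X Y ∈ L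
  elim : ∀ X ∈ L, ∀ Y ∈ L, ∀ e, (X e = -Y e ∧ X e ≠ 0) →
    ∃ Z ∈ L, Z e = 0 ∧ ∀ f, ¬ (X f = -Y f ∧ X f ≠ 0) → Z f = cmp X Y f

/-- No loops and no parallel or antiparallel pairs. -/
structure IsSimple (L : Set (E → SignType)) : Prop where
  loop : ∀ e, ∃ X ∈ L, X e ≠ 0
  par : ∀ e f, e ≠ f → ∃ X ∈ L, X e ≠ X f
  anti : ∀ e f, e ≠ f → ∃ X ∈ L, X e ≠ -X f

/-- The order of sign vectors. -/
def Le (X Y : E → SignType) : Prop := ∀ e, X e = 0 ∨ X e = Y e

/-- The topes are the maximal covectors. -/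
def IsTope (L : Set (E → SignType)) (T : E → SignType) : Prop :=
  T ∈ L ∧ ∀ X ∈ L, Le T X → X = T

/-- `S` and `T` differ in the coordinate `e` and in no other one. -/
def DiffAt (e : E) (S T : E → SignType) : Prop := S e ≠ T e ∧ ∀ f, f ≠ e → S f = T f

/-- The tope graph. -/
def topeGraph (L : Set (E → SignType)) : SimpleGraph {T : E → SignType // IsTope L T} where
  Adj S T := ∃ e, DiffAt e S.1 T.1
  symm := ⟨fun _ _ ⟨e, h, h'⟩ => ⟨e, Ne.symm h, fun f hf => (h' f hf).symm⟩⟩
  loopless := ⟨fun _ ⟨_, h, _⟩ => h rfl⟩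

/-- The `1`-skeleton of a polytope: the vertices are the extreme points, and two of them are adjacent
if the segment between them is an exposed face. -/
def skeleton {d : ℕ} (P : Set (EuclideanSpace ℝ (Fin d))) : SimpleGraph (P.extremePoints ℝ) where
  Adj x y := x ≠ y ∧ IsExposed ℝ P (segment ℝ x.1 y.1)
  symm := ⟨fun _ _ ⟨h, h'⟩ => ⟨h.symm, by rwa [segment_symm]⟩⟩
  loopless := ⟨fun _ ⟨h, _⟩ => h rfl⟩

/-- The sign vectors of a central arrangement. -/
def arr {d : ℕ} {F : Type} (v : F → EuclideanSpace ℝ (Fin d)) : Set (F → SignType) :=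
  {Y | ∃ x : EuclideanSpace ℝ (Fin d), ∀ e, Y e = SignType.sign (inner ℝ (v e) x)}

/-- The restriction of a set of sign vectors to the elements with the property `F`. -/
def restr (L : Set (E → SignType)) (F : E → Prop) : Set ({e // F e} → SignType) :=
  {Y | ∃ X ∈ L, ∀ e : {e // F e}, Y e = X e.1}

/-- The class of `e` is flat: the edges of the polytope which belong to `e` are all parallel, or the
lines spanned by them have a common point. -/
def Flat {L : Set (E → SignType)} {d : ℕ} {P : Set (EuclideanSpace ℝ (Fin d))}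
    (φ : {T : E → SignType // IsTope L T} → P.extremePoints ℝ) (e : E) : Prop :=
  (∃ u : EuclideanSpace ℝ (Fin d), ∀ S T : {T : E → SignType // IsTope L T}, DiffAt e S.1 T.1 →
    ∃ r : ℝ, (φ T).1 - (φ S).1 = r • u) ∨
  ∃ q : EuclideanSpace ℝ (Fin d), ∀ S T : {T : E → SignType // IsTope L T}, DiffAt e S.1 T.1 →
    q ∈ affineSpan ℝ {(φ S).1, (φ T).1}

end Pool.Agent.helper52.FC
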