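import Mathlib

/-!
# Polytopes whose 1-skeleton is a tope graph, part 1: Farkas' lemma and Motzkin's transposition theorem

The algebraic proof of Farkas' lemma by induction on the number of inequalities.
-/

set_option autoImplicit false

namespace Pool.Agent.helper52.FC

/-- Farkas' lemma. -/
theorem farkas {W : Type*} [AddCommGroup W] [Module ℝ W] {κ : Type*} [DecidableEq κ]
    (s : Finset κ) : ∀ (α : κ → (W →ₗ[ℝ] ℝ)) (γ : W →ₗ[ℝ] ℝ),
    (∀ x, (∀ i ∈ s, α i x ≤ 0) → γ x ≤ 0) →
    ∃ l : κ → ℝ, (∀ i, 0 ≤ l i) ∧ ∀ x, γ x = ∑ i ∈ s, l i * α i x := by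
  induction s using Finset.induction_on with
  | empty =>
    intro α γ h
    refine ⟨fun _ => 0, fun _ => le_refl _, fun x => ?_⟩
    have h1 := h x (by simp)
    have h2 := h (-x) (by simp)
    rw [map_neg] at h2
    rw [Finset.sum_empty]
    linarith
  | insert a s ha ih =>
    intro α γ h
    by_cases hA : ∀ x, (∀ i ∈ s, α i x ≤ 0) → γ x ≤ 0
    · obtain ⟨l, hl, hγ⟩ := ih α γ hA
      refine ⟨fun i => if i = a then 0 else l i, fun i => ?_, fun x => ?_⟩
      · dsimp only
        split_ifs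
        · exact le_refl _
        · exact hl i
      · simp only [Finset.sum_insert ha, if_true, zero_mul, zero_add]
        rw [hγ x]
        refine Finset.sum_congr rfl fun i hi => ?_
        rw [if_neg]
        rintro rfl
        exact ha hi
    · push Not at hA
      obtain ⟨x₀, hx₀, hγ₀⟩ := hA
      have ha0 : 0 < α a x₀ := by
        by_contra hcon
        rw [not_lt] at hcon
        refine absurd (h x₀ fun i hi => ?_) (not_le.2 hγ₀)
        rcases Finset.mem_insert.1 hi with rfl | hi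
        · exact hcon
        · exact hx₀ i hi
      set x₁ : W := (α a x₀)⁻¹ • x₀ with hx₁
      have h1 : α a x₁ = 1 := by
        rw [hx₁, map_smul, smul_eq_mul, inv_mul_cancel₀ ha0.ne']
      have h2 : ∀ i ∈ s, α i x₁ ≤ 0 := by
        intro i hi
        rw [hx₁, map_smul, smul_eq_mul]
        exact mul_nonpos_of_nonneg_of_nonpos (inv_nonneg.2 ha0.le) (hx₀ i hi)
      have h3 : 0 < γ x₁ := by
        rw [hx₁, map_smul, smul_eq_mul]
        exact mul_pos (inv_pos.2 ha0) hγ₀
      obtain ⟨l, hl, hγ⟩ := ih (fun i => α i - (α i x₁) • α a) (γ - (γ x₁) • α a) (by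
        intro x hx
        have h4 := h (x - (α a x) • x₁) (by
          intro i hi
          rcases Finset.mem_insert.1 hi with rfl | hi
          · rw [map_sub, map_smul, smul_eq_mul, h1, mul_one, sub_self]
          · have h5 := hx i hi
            rw [LinearMap.sub_apply, LinearMap.smul_apply, smul_eq_mul] at h5
            rw [map_sub, map_smul, smul_eq_mul]
            linarith)
        rw [map_sub, map_smul, smul_eq_mul] at h4
        rw [LinearMap.sub_apply, LinearMap.smul_apply, smul_eq_mul]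
        linarith)
      refine ⟨fun i => if i = a then γ x₁ - ∑ j ∈ s, l j * α j x₁ else l i, fun i => ?_,
        fun x => ?_⟩
      · dsimp only
        split_ifs
        · have h6 : ∑ j ∈ s, l j * α j x₁ ≤ 0 :=
            Finset.sum_nonpos fun j hj => mul_nonpos_of_nonneg_of_nonpos (hl j) (h2 j hj)
          linarith
        · exact hl i
      · simp only [Finset.sum_insert ha, if_true]
        have h7 : ∑ i ∈ s, (if i = a then γ x₁ - ∑ j ∈ s, l j * α j x₁ else l i) * α i x =
            ∑ i ∈ s, l i * α i x := by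
          refine Finset.sum_congr rfl fun i hi => ?_
          rw [if_neg]
          rintro rfl
          exact ha hi
        rw [h7]
        have h8 := hγ x
        simp only [LinearMap.sub_apply, LinearMap.smul_apply, smul_eq_mul, mul_sub,
          Finset.sum_sub_distrib] at h8
        have h9 : ∑ j ∈ s, l j * (α j x₁ * α a x) = (∑ j ∈ s, l j * α j x₁) * α a x := by
          rw [Finset.sum_mul]
          exact Finset.sum_congr rfl fun j _ => by ring
        rw [h9] at h8
        linarith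

/-- Motzkin's transposition theorem. -/
theorem motzkin {V : Type*} [AddCommGroup V] [Module ℝ V] {ι κ : Type*} [Fintype ι]
    (s : Finset κ) (p : ι → V) (u : κ → V)
    (h : ¬ ∃ y : V →ₗ[ℝ] ℝ, (∀ i, 0 ≤ y (p i)) ∧ ∀ e ∈ s, 0 < y (u e)) :
    ∃ (b : ι → ℝ) (a : κ → ℝ), (∀ i, 0 ≤ b i) ∧ (∀ e, 0 ≤ a e) ∧ ∑ e ∈ s, a e = 1 ∧
      ∀ y : V →ₗ[ℝ] ℝ, ∑ i, b i * y (p i) + ∑ e ∈ s, a e * y (u e) = 0 := by
  classical
  set α : ι ⊕ κ → (((V →ₗ[ℝ] ℝ) × ℝ) →ₗ[ℝ] ℝ) := Sum.elim
    (fun i => -((LinearMap.applyₗ (p i)).comp (LinearMap.fst ℝ (V →ₗ[ℝ] ℝ) ℝ)))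
    (fun e => LinearMap.snd ℝ (V →ₗ[ℝ] ℝ) ℝ -
      (LinearMap.applyₗ (u e)).comp (LinearMap.fst ℝ (V →ₗ[ℝ] ℝ) ℝ)) with hα
  have hα1 : ∀ i y t, α (Sum.inl i) (y, t) = -(y (p i)) := fun i y t => rfl
  have hα2 : ∀ e y t, α (Sum.inr e) (y, t) = t - y (u e) := fun e y t => rfl
  obtain ⟨l, hl, hγ⟩ := farkas ((Finset.univ : Finset ι).disjSum s) α
    (LinearMap.snd ℝ (V →ₗ[ℝ] ℝ) ℝ) (by
      rintro ⟨y, t⟩ hx
      change t ≤ 0
      by_contra ht
      rw [not_le] at ht
      refine h ⟨y, fun i => ?_, fun e he => ?_⟩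
      · have h1 := hx (Sum.inl i) (by simp)
        rw [hα1] at h1
        linarith
      · have h1 := hx (Sum.inr e) (by simpa using he)
        rw [hα2] at h1
        linarith)
  have hγ' : ∀ (y : V →ₗ[ℝ] ℝ) (t : ℝ), t = ∑ i, l (Sum.inl i) * -(y (p i)) +
      ∑ e ∈ s, l (Sum.inr e) * (t - y (u e)) := by
    intro y t
    have h1 := hγ (y, t)
    rw [Finset.sum_disjSum] at h1
    exact h1
  refine ⟨fun i => l (Sum.inl i), fun e => l (Sum.inr e), fun i => hl _, fun e => hl _, ?_, ?_⟩
  · have h1 := hγ' 0 1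
    simpa using h1.symm
  · intro y
    have h1 := hγ' y 0
    have h2 : ∑ i, l (Sum.inl i) * -(y (p i)) = -∑ i, l (Sum.inl i) * y (p i) := by
      rw [← Finset.sum_neg_distrib]
      exact Finset.sum_congr rfl fun i _ => by ring
    have h3 : ∑ e ∈ s, l (Sum.inr e) * (0 - y (u e)) = -∑ e ∈ s, l (Sum.inr e) * y (u e) := by
      rw [← Finset.sum_neg_distrib]
      exact Finset.sum_congr rfl fun i _ => by ring
    rw [h2, h3] at h1
    linarith

end Pool.Agent.helper52.FC
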