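import Pool.Agent.helper52.FC.Conf

/-!
# Polytopes whose 1-skeleton is a tope graph, part 3: the sign of a flat class

`S : ι → Prop` is the sign of one element on the vertices; the class of the element consists of the
edges `i j` with `¬ (S i ↔ S j)`; it is flat if some `q ≠ 0` lies in the span of the two ends of each
of these edges.
-/

set_option autoImplicit false

namespace Pool.Agent.helper52.FC

open Finset

variable {V : Type*} [AddCommGroup V] [Module ℝ V] {ι : Type*} [Fintype ι]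

/-- the class of `S` is flat with centre `q`. -/
def FlatC (p : ι → V) (S : ι → Prop) (q : V) : Prop :=
  ∀ i k, Ed p i k → ¬ (S i ↔ S k) → ∃ α β : ℝ, q = α • p i + β • p k

theorem sameSign {p : ι → V} (hV : ∀ i, ∃ c, Vt p i c) {n : V →ₗ[ℝ] ℝ} (hn : ∀ k, 0 < n (p k))
    {q : V} (nq : n q = 0) {S : ι → Prop} (hS : FlatC p S q) {i j : ι} {c c' : V →ₗ[ℝ] ℝ}
    (hc : Vt p i c) (hc' : Vt p j c') (h1 : 0 < c q) (h2 : 0 < c' q) : S i ↔ S j := by
  classical
  have hc0 : ∀ k, 0 ≤ c (p k) := by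
    intro k
    by_cases h : k = i
    · rw [h, hc.1]
    · exact (hc.2 k h).le
  have hc0' : ∀ k, 0 ≤ c' (p k) := by
    intro k
    by_cases h : k = j
    · rw [h, hc'.1]
    · exact (hc'.2 k h).le
  -- the value of the functional at time `t`
  set ct : ℝ → ι → ℝ := fun t k => (1 - t) * c (p k) + t * c' (p k) with hct
  set K : ι → Set ℝ := fun k => {t | ∀ k', ct t k * n (p k') ≤ ct t k' * n (p k)} with hK
  have hclosed : ∀ k, IsClosed (K k) := by
    intro k
    have h3 : K k = ⋂ k', {t | ct t k * n (p k') ≤ ct t k' * n (p k)} := by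
      ext t
      simp [hK]
    rw [h3]
    refine isClosed_iInter fun k' => isClosed_le ?_ ?_
    · simp only [hct]
      fun_prop
    · simp only [hct]
      fun_prop
  set A : Set ℝ := ⋃ k ∈ Finset.univ.filter (fun k => S k), K k with hA
  set B : Set ℝ := ⋃ k ∈ Finset.univ.filter (fun k => ¬ S k), K k with hB
  have hAm : ∀ t, t ∈ A ↔ ∃ k, S k ∧ t ∈ K k := by
    intro t
    simp [hA]
  have hBm : ∀ t, t ∈ B ↔ ∃ k, ¬ S k ∧ t ∈ K k := by
    intro t
    simp [hB]
  have hAc : IsClosed A := isClosed_biUnion_finset fun k _ => hclosed k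
  have hBc : IsClosed B := isClosed_biUnion_finset fun k _ => hclosed k
  have hcover : Set.Icc (0 : ℝ) 1 ⊆ A ∪ B := by
    intro t _
    obtain ⟨k, _, hk⟩ := Finset.exists_min_image (Finset.univ : Finset ι)
      (fun k => ct t k / n (p k)) ⟨i, Finset.mem_univ i⟩
    have hkK : t ∈ K k := by
      intro k'
      have h3 := hk k' (Finset.mem_univ k')
      rwa [div_le_div_iff₀ (hn k) (hn k')] at h3
    by_cases hSk : S k
    · exact Or.inl ((hAm t).2 ⟨k, hSk, hkK⟩)
    · exact Or.inr ((hBm t).2 ⟨k, hSk, hkK⟩)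
  have hi : (0 : ℝ) ∈ K i := by
    intro k'
    have e1 : ct 0 i = 0 := by simp [hct, hc.1]
    have e2 : ct 0 k' = c (p k') := by simp [hct]
    rw [e1, e2, zero_mul]
    exact mul_nonneg (hc0 k') (hn i).le
  have hj : (1 : ℝ) ∈ K j := by
    intro k'
    have e1 : ct 1 j = 0 := by simp [hct, hc'.1]
    have e2 : ct 1 k' = c' (p k') := by simp [hct]
    rw [e1, e2, zero_mul]
    exact mul_nonneg (hc0' k') (hn j).le
  by_contra hcon
  have hmeet : (Set.Icc (0 : ℝ) 1 ∩ (A ∩ B)).Nonempty := by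
    have hpc : IsPreconnected (Set.Icc (0 : ℝ) 1) := isPreconnected_Icc
    refine isPreconnected_closed_iff.1 hpc A B hAc hBc hcover ?_ ?_
    · by_cases hSi : S i
      · exact ⟨0, by simp, (hAm 0).2 ⟨i, hSi, hi⟩⟩
      · have hSj : S j := by
          by_contra h
          exact hcon ⟨fun h' => absurd h' hSi, fun h' => absurd h' h⟩
        exact ⟨1, by simp, (hAm 1).2 ⟨j, hSj, hj⟩⟩
    · by_cases hSi : S i
      · have hSj : ¬ S j := fun h => hcon ⟨fun _ => h, fun _ => hSi⟩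
        exact ⟨1, by simp, (hBm 1).2 ⟨j, hSj, hj⟩⟩
      · exact ⟨0, by simp, (hBm 0).2 ⟨i, hSi, hi⟩⟩
  obtain ⟨t, ⟨ht0, ht1⟩, htA, htB⟩ := hmeet
  obtain ⟨k₁, hk₁, hK₁⟩ := (hAm t).1 htA
  obtain ⟨k₂, hk₂, hK₂⟩ := (hBm t).1 htB
  set m : ℝ := ct t k₁ / n (p k₁) with hm
  set d : V →ₗ[ℝ] ℝ := (1 - t) • c + t • c' - m • n with hd
  have hdk : ∀ k, d (p k) = ct t k - m * n (p k) := by
    intro k
    simp [hd, hct]
  have hd1 : d (p k₁) = 0 := by
    rw [hdk, hm, div_mul_cancel₀ _ (hn k₁).ne', sub_self]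
  have hdn : ∀ k, 0 ≤ d (p k) := by
    intro k
    rw [hdk, hm]
    have h3 := hK₁ k
    have h4 := hn k₁
    rw [sub_nonneg, div_mul_eq_mul_div, div_le_iff₀ h4]
    exact h3
  have hd2 : d (p k₂) = 0 := by
    refine le_antisymm ?_ (hdn k₂)
    rw [hdk, hm]
    have h3 := hK₂ k₁
    have h4 := hn k₁
    rw [sub_nonpos, div_mul_eq_mul_div, le_div_iff₀ h4]
    exact h3
  have hdq : 0 < d q := by
    have h3 : d q = (1 - t) * c q + t * c' q := by
      simp [hd, nq]
    rw [h3]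
    rcases eq_or_lt_of_le ht0 with h4 | h4
    · rw [← h4]
      linarith
    · have h5 : 0 ≤ (1 - t) * c q := mul_nonneg (by linarith) h1.le
      have h6 : 0 < t * c' q := mul_pos h4 h2
      linarith
  have h7 := path hV hn hdn S (fun a b ha hb hab => by
    by_contra hneq
    obtain ⟨α, β, hαβ⟩ := hS a b hab hneq
    have h8 : d q = 0 := by
      rw [hαβ, map_add, map_smul, map_smul, ha, hb]
      simp
    rw [h8] at hdq
    exact lt_irrefl _ hdq) k₁ k₂ hd1 hd2
  exact hk₂ (h7.1 hk₁)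

/-- the sign of a flat class. -/
theorem signs {p : ι → V} (hV : ∀ i, ∃ c, Vt p i c) {q : V} (hq : q ≠ 0) {S : ι → Prop}
    (hS : FlatC p S q) {i₀ j₀ i₁ j₁ : ι} (h0 : Ed p i₀ j₀) (h1 : Ed p i₁ j₁)
    (hS0 : ¬ (S i₀ ↔ S j₀)) (hS1 : ¬ (S i₁ ↔ S j₁)) (e1 : i₀ ≠ i₁) (e2 : i₀ ≠ j₁) (e3 : j₀ ≠ i₁)
    (e4 : j₀ ≠ j₁) :
    ∃ ε : ℝ, (ε = 1 ∨ ε = -1) ∧ ∀ i c, Vt p i c →
      (S i → 0 < ε * c q) ∧ (¬ S i → ε * c q < 0) := by
  classical
  -- without loss of generality `S i₀`
  wlog hSi : S i₀ generalizing i₀ j₀ with H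
  · have hSj : S j₀ := by
      by_contra h
      exact hS0 ⟨fun h' => absurd h' hSi, fun h' => absurd h' h⟩
    exact H h0.symm (fun h => hS0 h.symm) e3 e4 e1 e2 hSj
  have hSj : ¬ S j₀ := fun h => hS0 ⟨fun _ => h, fun _ => hSi⟩
  obtain ⟨c₀, hc₀i, hc₀j, hc₀⟩ := h0.2
  obtain ⟨c₁, hc₁i, hc₁j, hc₁⟩ := h1.2
  obtain ⟨α, β, hαβ⟩ := hS i₀ j₀ h0 hS0
  obtain ⟨α', β', hαβ'⟩ := hS i₁ j₁ h1 hS1
  have hq0 : c₀ q = 0 := by rw [hαβ]; simp [hc₀i, hc₀j]
  have hq1 : c₁ q = 0 := by rw [hαβ']; simp [hc₁i, hc₁j]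
  set n : V →ₗ[ℝ] ℝ := c₀ + c₁ with hnd
  have hn : ∀ k, 0 < n (p k) := by
    intro k
    have h2 : n (p k) = c₀ (p k) + c₁ (p k) := rfl
    rw [h2]
    by_cases hk : k = i₀ ∨ k = j₀
    · have h3 : 0 < c₁ (p k) := by
        rcases hk with rfl | rfl
        · exact hc₁ k e1 e2
        · exact hc₁ k e3 e4
      have h4 : c₀ (p k) = 0 := by
        rcases hk with rfl | rfl
        · exact hc₀i
        · exact hc₀j
      rw [h4, zero_add]
      exact h3
    · push Not at hk
      have h3 := hc₀ k hk.1 hk.2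
      have h4 : 0 ≤ c₁ (p k) := by
        by_cases hk1 : k = i₁
        · rw [hk1, hc₁i]
        · by_cases hk2 : k = j₁
          · rw [hk2, hc₁j]
          · exact (hc₁ k hk1 hk2).le
      linarith
  have nq : n q = 0 := by
    have h2 : n q = c₀ q + c₁ q := rfl
    rw [h2, hq0, hq1, add_zero]
  -- the coefficients have opposite signs
  have h5 : α * c₁ (p i₀) + β * c₁ (p j₀) = 0 := by
    rw [hαβ] at hq1
    simpa using hq1
  have h6 := hc₁ i₀ e1 e2
  have h7 := hc₁ j₀ e3 e4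
  have hβ0 : β ≠ 0 := by
    rintro rfl
    rw [zero_mul, add_zero] at h5
    have h8 : α = 0 := (mul_eq_zero.1 h5).resolve_right h6.ne'
    rw [h8] at hαβ
    simp at hαβ
    exact hq hαβ
  have hneg : α * β < 0 := by
    have h8 : α * c₁ (p i₀) = -(β * c₁ (p j₀)) := by linarith
    have h9 : (α * β) * c₁ (p i₀) = -(β ^ 2 * c₁ (p j₀)) := by
      rw [mul_right_comm, h8]
      ring
    have h10 : 0 < β ^ 2 * c₁ (p j₀) := by positivity
    by_contra hcon
    rw [not_lt] at hcon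
    have := mul_nonneg hcon h6.le
    linarith
  obtain ⟨ci, hci⟩ := hV i₀
  obtain ⟨cj, hcj⟩ := hV j₀
  have hciq : ci q = β * ci (p j₀) := by
    rw [hαβ]
    simp [hci.1]
  have hcjq : cj q = α * cj (p i₀) := by
    rw [hαβ]
    simp [hcj.1]
  have hcip := hci.2 j₀ h0.1.symm
  have hcjp := hcj.2 i₀ h0.1
  -- the sign
  obtain ⟨ε, hε, hεβ⟩ : ∃ ε : ℝ, (ε = 1 ∨ ε = -1) ∧ 0 < ε * β := by
    rcases lt_or_gt_of_ne hβ0 with h | h
    · exact ⟨-1, Or.inr rfl, by linarith⟩
    · exact ⟨1, Or.inl rfl, by linarith⟩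
  have hε2 : ε * ε = 1 := by
    rcases hε with rfl | rfl <;> norm_num
  have hεα : ε * α < 0 := by
    have h8 : (ε * α) * (ε * β) = α * β := by
      rw [show (ε * α) * (ε * β) = (ε * ε) * (α * β) by ring, hε2, one_mul]
    by_contra hcon
    rw [not_lt] at hcon
    have := mul_nonneg hcon hεβ.le
    linarith
  have hFl : ∀ δ : ℝ, FlatC p S (δ • q) := by
    intro δ a b hab hSab
    obtain ⟨x, y, hxy⟩ := hS a b hab hSab
    exact ⟨δ * x, δ * y, by rw [hxy, smul_add, smul_smul, smul_smul]⟩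
  have hpos : ∀ i c, Vt p i c → 0 < ε * c q → S i := by
    intro i c hc hcq
    have h8 := sameSign hV hn (q := ε • q) (by rw [map_smul, nq, smul_zero]) (hFl ε) hc hci
      (by rw [map_smul, smul_eq_mul]; exact hcq)
      (by
        rw [map_smul, smul_eq_mul, hciq, ← mul_assoc]
        exact mul_pos hεβ hcip)
    exact h8.2 hSi
  have hneg' : ∀ i c, Vt p i c → ε * c q < 0 → ¬ S i := by
    intro i c hc hcq
    have h8 := sameSign hV hn (q := (-ε) • q) (by rw [map_smul, nq, smul_zero]) (hFl (-ε)) hc hcj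
      (by rw [map_smul, smul_eq_mul]; linarith)
      (by
        rw [map_smul, smul_eq_mul, hcjq, neg_mul, ← mul_assoc]
        have := mul_neg_of_neg_of_pos hεα hcjp
        linarith)
    exact fun h => hSj (h8.1 h)
  have hzero : ∀ i c, Vt p i c → ε * c q ≠ 0 := by
    intro i c hc hcq
    have hcq0 : c q = 0 := by
      rcases mul_eq_zero.1 hcq with h | h
      · rw [h] at hε2
        norm_num at hε2
      · exact h
    obtain ⟨k, hk1, hk2⟩ := sep_dual (a := p i) (w := q) (by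
      intro t ht
      have h8 := congrArg n ht
      rw [nq, map_smul, smul_eq_mul] at h8
      have h9 : t = 0 := (mul_eq_zero.1 h8.symm).resolve_right (hn i).ne'
      rw [h9, zero_smul] at ht
      exact hq ht)
    obtain ⟨N, hN, hdom⟩ := dominate (fun k' => c (p k')) (fun k' => -|k (p k')|)
    have hVt : ∀ δ : ℝ, (δ = 1 ∨ δ = -1) → Vt p i (N • c + δ • k) := by
      intro δ hδ
      refine ⟨by simp [hc.1, hk1], fun k' hk' => ?_⟩
      have h8 := hdom k' (hc.2 k' hk')
      have h9 : (N • c + δ • k) (p k') = N * c (p k') + δ * k (p k') := by simp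
      rw [h9]
      have h10 := neg_abs_le (k (p k'))
      have h11 := le_abs_self (k (p k'))
      rcases hδ with rfl | rfl <;> linarith
    have hval : ∀ δ : ℝ, ε * (N • c + δ • k) q = δ * (ε * k q) := by
      intro δ
      have h9 : (N • c + δ • k) q = N * c q + δ * k q := by simp
      rw [h9, hcq0]
      ring
    have hεk : ε * k q ≠ 0 := by
      refine mul_ne_zero ?_ hk2
      rintro rfl
      norm_num at hε2
    rcases lt_or_gt_of_ne hεk with h | h
    · have a1 := hneg' i _ (hVt 1 (Or.inl rfl)) (by rw [hval]; linarith)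
      have a2 := hpos i _ (hVt (-1) (Or.inr rfl)) (by rw [hval]; linarith)
      exact a1 a2
    · have a1 := hpos i _ (hVt 1 (Or.inl rfl)) (by rw [hval]; linarith)
      have a2 := hneg' i _ (hVt (-1) (Or.inr rfl)) (by rw [hval]; linarith)
      exact a2 a1
  refine ⟨ε, hε, fun i c hc => ⟨fun hi => ?_, fun hi => ?_⟩⟩
  · rcases lt_trichotomy (ε * c q) 0 with h | h | h
    · exact absurd hi (hneg' i c hc h)
    · exact absurd h (hzero i c hc)
    · exact h
  · rcases lt_trichotomy (ε * c q) 0 with h | h | h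
    · exact h
    · exact absurd h (hzero i c hc)
    · exact absurd (hpos i c hc h) hi

end Pool.Agent.helper52.FC
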