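import Pool.Agent.helper52.FC.Poly
import Pool.Agent.helper52.FC.Signs

/-!
# Polytopes whose 1-skeleton is a tope graph, part 7: assembly
-/

set_option autoImplicit false

namespace Pool.Agent.helper52.FC

variable {E : Type} {L : Set (E → SignType)} {d : ℕ} {P : Set (EuclideanSpace ℝ (Fin d))}

theorem diffAt_unique {e e' : E} {S T : E → SignType} (h : DiffAt e' S T) (h' : S e ≠ T e) :
    DiffAt e S T := by
  have : e = e' := by
    by_contra h1
    exact h' (h.2 e h1)
  rw [this]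
  exact h

/-- The centre of a flat class. -/
theorem centre [Finite E] (hL : IsOM L) (hs : IsSimple L)
    (φ : {T : E → SignType // IsTope L T} ≃ P.extremePoints ℝ) {e : E} (he : Flat φ e) :
    ∃ q : EuclideanSpace ℝ (Fin d) × ℝ, q ≠ 0 ∧ ∀ S T : {T : E → SignType // IsTope L T},
      DiffAt e S.1 T.1 → ∃ α β : ℝ, q = α • pv φ S + β • pv φ T := by
  rcases he with ⟨u, hu⟩ | ⟨q, hq⟩
  · refine ⟨(u, 0), ?_, fun S T hST => ?_⟩
    · obtain ⟨S, T, hS, hT, hST⟩ := exists_diff hL hs e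
      obtain ⟨r, hr⟩ := hu ⟨S, hS⟩ ⟨T, hT⟩ hST
      intro h
      have h1 : u = 0 := congrArg Prod.fst h
      rw [h1, smul_zero, sub_eq_zero] at hr
      have h2 := φ.injective (Subtype.ext hr)
      exact hST.1 (congrFun (congrArg Subtype.val h2) e).symm
    · obtain ⟨r, hr⟩ := hu S T hST
      have hr0 : r ≠ 0 := by
        rintro rfl
        rw [zero_smul, sub_eq_zero] at hr
        have h2 := φ.injective (Subtype.ext hr)
        exact hST.1 (congrFun (congrArg Subtype.val h2) e).symm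
      refine ⟨-r⁻¹, r⁻¹, ?_⟩
      refine Prod.ext ?_ ?_
      · change u = -r⁻¹ • (φ S).1 + r⁻¹ • (φ T).1
        rw [neg_smul, neg_add_eq_sub, ← smul_sub, hr, smul_smul, inv_mul_cancel₀ hr0, one_smul]
      · change (0 : ℝ) = -r⁻¹ • (1 : ℝ) + r⁻¹ • (1 : ℝ)
        simp
  · refine ⟨(q, 1), fun h => one_ne_zero (congrArg Prod.snd h), fun S T hST => ?_⟩
    have h1 := hq S T hST
    rw [mem_affineSpan_pair_iff_exists_lineMap_eq] at h1
    obtain ⟨r, hr⟩ := h1
    rw [AffineMap.lineMap_apply_module] at hr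
    refine ⟨1 - r, r, ?_⟩
    refine Prod.ext ?_ ?_
    · change q = (1 - r) • (φ S).1 + r • (φ T).1
      exact hr.symm
    · change (1 : ℝ) = (1 - r) • (1 : ℝ) + r • (1 : ℝ)
      simp

theorem main [Finite E] [Nontrivial E] (hL : IsOM L) (hs : IsSimple L)
    (hP : ∃ s : Finset (EuclideanSpace ℝ (Fin d)), P = convexHull ℝ (s : Set _))
    (φ : topeGraph L ≃g skeleton P) :
    ∃ v : {e // Flat φ e} → EuclideanSpace ℝ (Fin d), restr L (Flat φ) = arr v := by
  classical
  have hfin : Finite {T : E → SignType // IsTope L T} := inferInstance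
  let _ : Fintype {T : E → SignType // IsTope L T} := Fintype.ofFinite _
  have hne : Nonempty {T : E → SignType // IsTope L T} := by
    obtain ⟨T, hT⟩ := exists_tope hL
    exact ⟨⟨T, hT⟩⟩
  set p : {T : E → SignType // IsTope L T} → EuclideanSpace ℝ (Fin d) × ℝ := pv φ.toEquiv with hp
  have hV : ∀ i, ∃ c, Vt p i c := vt hP φ.toEquiv
  have hED : ∀ i j, Ed p i j → ∃ e, DiffAt e i.1 j.1 := by
    intro i j h
    have h1 : (skeleton P).Adj (φ i) (φ j) := adj_of_ed hP φ.toEquiv h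
    exact φ.map_adj_iff.1 h1
  have hDE : ∀ i j : {T : E → SignType // IsTope L T}, ∀ e, DiffAt e i.1 j.1 → Ed p i j := by
    intro i j e h
    have h1 : (skeleton P).Adj (φ i) (φ j) := φ.map_adj_iff.2 ⟨e, h⟩
    exact ed_of_adj φ.toEquiv h1
  -- the signs
  let ng : {T : E → SignType // IsTope L T} → {T : E → SignType // IsTope L T} :=
    fun T => ⟨fun e => -T.1 e, tope_neg hL hs T.2⟩
  let S : {e // Flat φ e} → {T : E → SignType // IsTope L T} → Prop := fun e T => T.1 e.1 = 1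
  have hS : ∀ (e : {e // Flat φ e}) (i j : {T : E → SignType // IsTope L T}),
      ¬ (S e i ↔ S e j) ↔ i.1 e.1 ≠ j.1 e.1 := by
    intro e i j
    have h1 := tope_supp hL hs i.2 e.1
    have h2 := tope_supp hL hs j.2 e.1
    change ¬ (i.1 e.1 = 1 ↔ j.1 e.1 = 1) ↔ _
    revert h1 h2
    generalize i.1 e.1 = a
    generalize j.1 e.1 = b
    cases a <;> cases b <;> decide
  have hneg : ∀ e i, S e (ng i) ↔ ¬ S e i := by
    intro e i
    have h1 := tope_supp hL hs i.2 e.1
    change -i.1 e.1 = 1 ↔ ¬ i.1 e.1 = 1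
    revert h1
    generalize i.1 e.1 = a
    cases a <;> decide
  have hcen : ∀ e : {e // Flat φ e}, ∃ q : EuclideanSpace ℝ (Fin d) × ℝ,
      (∃ (i j : {T : E → SignType // IsTope L T}) (α β : ℝ), q = α • p i + β • p j) ∧
      ∀ i c, Vt p i c → (S e i → 0 < c q) ∧ (¬ S e i → c q < 0) := by
    intro e
    obtain ⟨q, hq0, hq⟩ := centre hL hs φ.toEquiv e.2
    have hflat : FlatC p (S e) q := by
      intro i k hik hSik
      obtain ⟨e', he'⟩ := hED i k hik
      exact hq i k (diffAt_unique he' ((hS e i k).1 hSik))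
    obtain ⟨T, T', hT, hT', hTT⟩ := exists_diff hL hs e.1
    obtain ⟨f, hf⟩ := exists_ne e.1
    have hff := hTT.2 f hf
    have hf0 := tope_supp hL hs hT f
    have hf0' := tope_supp hL hs hT' f
    have hne1 : ∀ {a b : {T : E → SignType // IsTope L T}}, a.1 f = T f → b.1 f = -T f → a ≠ b := by
      intro a b ha hb h
      rw [h, hb] at ha
      exact hf0 (sneg ha.symm rfl)
    have hd1 : DiffAt e.1 (ng ⟨T, hT⟩).1 (ng ⟨T', hT'⟩).1 := by
      refine ⟨fun h => hTT.1 ?_, fun g hg => ?_⟩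
      · have h' : -T e.1 = -T' e.1 := h
        simpa using h'
      · change -T g = -T' g
        rw [hTT.2 g hg]
    obtain ⟨ε, hε, hsig⟩ := signs hV hq0 hflat (hDE ⟨T, hT⟩ ⟨T', hT'⟩ e.1 hTT)
      (hDE (ng ⟨T, hT⟩) (ng ⟨T', hT'⟩) e.1 hd1) ((hS e _ _).2 hTT.1) ((hS e _ _).2 hd1.1)
      (hne1 rfl rfl) (hne1 rfl (by change -T' f = -T f; rw [hff]))
      (hne1 hff.symm rfl) (hne1 hff.symm (by change -T' f = -T f; rw [hff]))
    refine ⟨ε • q, ?_, fun i c hc => ?_⟩
    · obtain ⟨α, β, hαβ⟩ := hq ⟨T, hT⟩ ⟨T', hT'⟩ hTT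
      refine ⟨⟨T, hT⟩, ⟨T', hT'⟩, ε * α, ε * β, ?_⟩
      rw [hαβ, smul_add, smul_smul, smul_smul]
    · rw [map_smul, smul_eq_mul]
      exact hsig i c hc
  choose q hqspan hqsig using hcen
  have hspan : ∀ e, q e ∈ Submodule.span ℝ (Set.range p) := by
    intro e
    obtain ⟨i, j, α, β, h⟩ := hqspan e
    rw [h]
    exact add_mem (Submodule.smul_mem _ _ (Submodule.subset_span ⟨i, rfl⟩))
      (Submodule.smul_mem _ _ (Submodule.subset_span ⟨j, rfl⟩))
  -- the vectors
  set σ : EuclideanSpace ℝ (Fin d) := ∑ T, (φ T).1 with hσ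
  set N : ℝ := (Fintype.card {T : E → SignType // IsTope L T} : ℝ) with hN
  have hN0 : N ≠ 0 := by
    rw [hN]
    exact_mod_cast Fintype.card_ne_zero
  have hsum : ∑ T, p T = (σ, N) := by
    refine Prod.ext ?_ ?_
    · rw [Prod.fst_sum]; rfl
    · rw [Prod.snd_sum]
      change ∑ T : {T : E → SignType // IsTope L T}, (1 : ℝ) = N
      simp [hN]
  let g : EuclideanSpace ℝ (Fin d) × ℝ →ₗ[ℝ] EuclideanSpace ℝ (Fin d) :=
    LinearMap.fst ℝ _ ℝ - (LinearMap.toSpanSingleton ℝ _ (N⁻¹ • σ)).comp (LinearMap.snd ℝ _ ℝ)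
  have hg : ∀ y, g y = y.1 - y.2 • (N⁻¹ • σ) := fun y => rfl
  refine ⟨fun e => g (q e), ?_⟩
  have hz : ∀ x : EuclideanSpace ℝ (Fin d), ∃ z : EuclideanSpace ℝ (Fin d) × ℝ →ₗ[ℝ] ℝ,
      z (∑ T, p T) = 0 ∧ ∀ y, z y = inner ℝ (g y) x := by
    intro x
    refine ⟨((innerSL ℝ x : EuclideanSpace ℝ (Fin d) →L[ℝ] ℝ) :
      EuclideanSpace ℝ (Fin d) →ₗ[ℝ] ℝ).comp g, ?_, fun y => ?_⟩
    · rw [LinearMap.comp_apply, hg, hsum]
      change (innerSL ℝ x) (σ - N • (N⁻¹ • σ)) = 0
      rw [smul_smul, mul_inv_cancel₀ hN0, one_smul, sub_self, map_zero]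
    · rw [LinearMap.comp_apply]
      change inner ℝ x (g y) = _
      exact real_inner_comm _ _
  have hz' : ∀ z : EuclideanSpace ℝ (Fin d) × ℝ →ₗ[ℝ] ℝ, z (∑ T, p T) = 0 →
      ∃ x : EuclideanSpace ℝ (Fin d), ∀ y, z y = inner ℝ (g y) x := by
    intro z hz0
    let f : EuclideanSpace ℝ (Fin d) →ₗ[ℝ] ℝ := z.comp (LinearMap.inl ℝ _ ℝ)
    refine ⟨(InnerProductSpace.toDual ℝ (EuclideanSpace ℝ (Fin d))).symm
      (LinearMap.toContinuousLinearMap f), fun y => ?_⟩
    rw [real_inner_comm, InnerProductSpace.toDual_symm_apply]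
    change z y = z (g y, 0)
    rw [hsum] at hz0
    have h1 : ((g y, 0) : EuclideanSpace ℝ (Fin d) × ℝ) = y - (y.2 * N⁻¹) • (σ, N) := by
      refine Prod.ext ?_ ?_
      · change g y = y.1 - (y.2 * N⁻¹) • σ
        rw [hg, smul_smul]
      · change (0 : ℝ) = y.2 - (y.2 * N⁻¹) * N
        rw [mul_assoc, inv_mul_cancel₀ hN0, mul_one, sub_self]
    rw [h1, map_sub, map_smul, hz0, smul_zero, sub_zero]
  refine recon_eq (restr_om hL _) (arr_om _) ?_ ?_ ?_
  · intro e
    obtain ⟨X, hX, hXe⟩ := hs.loop e.1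
    exact ⟨fun f => X f.1, ⟨X, hX, fun _ => rfl⟩, hXe⟩
  · intro e
    obtain ⟨T, hT⟩ := exists_tope hL
    obtain ⟨z, hz0, hze⟩ := core_two hV hqsig hneg ⟨T, hT⟩
    obtain ⟨x, hx⟩ := hz' z hz0
    refine ⟨_, ⟨x, fun _ => rfl⟩, ?_⟩
    rw [Ne, sign_eq_zero_iff, ← hx]
    by_cases h : S e ⟨T, hT⟩
    · exact ((hze e).1 h).ne'
    · exact ((hze e).2 h).ne
  · intro X hX
    constructor
    · rintro ⟨Y, hY, hYX⟩
      obtain ⟨T0, hT0⟩ := exists_tope hL
      have hT : IsTope L (cmp Y T0) := tope_of (hL.comp Y hY T0 hT0.1) fun e => by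
        by_cases h : Y e = 0
        · rw [cmp_pos h]; exact tope_supp hL hs hT0 e
        · rwa [cmp_neg h]
      have hXT : ∀ e : {e // Flat φ e}, X e = cmp Y T0 e.1 := by
        intro e
        rw [cmp_neg, hYX]
        rw [← hYX]
        exact hX e
      obtain ⟨z, hz0, hze⟩ := core_two hV hqsig hneg ⟨_, hT⟩
      obtain ⟨x, hx⟩ := hz' z hz0
      refine ⟨x, fun e => ?_⟩
      rw [← hx]
      have h2 := hX e
      by_cases h : S e ⟨_, hT⟩
      · rw [sign_pos ((hze e).1 h), hXT]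
        exact h
      · rw [sign_neg ((hze e).2 h)]
        have h3 : X e ≠ 1 := by
          rw [hXT]
          exact h
        revert h2 h3
        generalize X e = a
        cases a <;> decide
    · rintro ⟨x, hx⟩
      obtain ⟨z, hz0, hze⟩ := hz x
      have hz1 : ∀ e, z (q e) ≠ 0 := by
        intro e h
        rw [hze] at h
        exact hX e (by rw [hx, h, sign_zero])
      obtain ⟨i, hi⟩ := core_three hV (n := LinearMap.snd ℝ _ ℝ) (fun k => by
        change (0 : ℝ) < 1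
        exact one_pos) hqsig hneg hspan hz0 hz1
      refine ⟨i.1, i.2.1, fun e => ?_⟩
      rw [hx, ← hze]
      have h1 := tope_supp hL hs i.2 e.1
      have h2 := hi e
      rcases lt_or_gt_of_ne (hz1 e) with h3 | h3
      · rw [sign_neg h3]
        have h4 : ¬ i.1 e.1 = 1 := fun h4 => absurd (h2.1 h4) (not_lt.2 h3.le)
        revert h1 h4
        generalize i.1 e.1 = a
        cases a <;> decide
      · rw [sign_pos h3]
        exact (h2.2 h3).symm

/-- The case of at most one element. -/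
theorem main_sub [Finite E] [Subsingleton E] (hL : IsOM L) (hs : IsSimple L)
    (φ : topeGraph L ≃g skeleton P) :
    ∃ v : {e // Flat φ e} → EuclideanSpace ℝ (Fin d), restr L (Flat φ) = arr v := by
  classical
  rcases isEmpty_or_nonempty {e // Flat φ e} with hF | ⟨⟨e₀⟩⟩
  · refine ⟨fun _ => 0, Set.ext fun X => ⟨fun _ => ⟨0, fun e => (hF.false e).elim⟩, fun _ =>
      ⟨_, hL.zero, fun e => (hF.false e).elim⟩⟩⟩
  · obtain ⟨T, T', hT, hT', hTT⟩ := exists_diff hL hs e₀.1
    have hw : (φ ⟨T', hT'⟩).1 - (φ ⟨T, hT⟩).1 ≠ 0 := by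
      intro h
      rw [sub_eq_zero] at h
      have h2 := φ.injective (Subtype.ext h)
      exact hTT.1 (congrFun (congrArg Subtype.val h2) e₀.1).symm
    set w := (φ ⟨T', hT'⟩).1 - (φ ⟨T, hT⟩).1 with hwdef
    have hww : 0 < inner ℝ w w := real_inner_self_pos.2 hw
    have hsub : ∀ e : {e // Flat φ e}, e = e₀ := fun e => Subtype.ext (Subsingleton.elim _ _)
    refine ⟨fun _ => w, recon_eq (restr_om hL _) (arr_om _) ?_ ?_ ?_⟩
    · intro e
      obtain ⟨X, hX, hXe⟩ := hs.loop e.1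
      exact ⟨fun f => X f.1, ⟨X, hX, fun _ => rfl⟩, hXe⟩
    · intro e
      refine ⟨_, ⟨w, fun _ => rfl⟩, ?_⟩
      rw [Ne, sign_eq_zero_iff]
      exact hww.ne'
    · intro X hX
      have hX0 := hX e₀
      constructor
      · rintro -
        have h1 : X e₀ = 1 ∨ X e₀ = -1 := by
          revert hX0
          generalize X e₀ = a
          cases a <;> decide
        rcases h1 with h1 | h1
        · refine ⟨w, fun e => ?_⟩
          rw [hsub e, h1, sign_pos hww]
        · refine ⟨-w, fun e => ?_⟩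
          rw [hsub e, h1, inner_neg_right, sign_neg (neg_neg_of_pos hww)]
      · rintro -
        have h1 := tope_supp hL hs hT e₀.1
        by_cases h2 : X e₀ = T e₀.1
        · refine ⟨T, hT.1, fun e => ?_⟩
          rw [hsub e, h2]
        · refine ⟨_, hL.neg T hT.1, fun e => ?_⟩
          rw [hsub e]
          exact sne hX0 h1 h2

/-- Polytopes whose `1`-skeleton is the tope graph of an oriented matroid: the restriction to the flat
elements is realizable. -/
theorem flat_classes [Finite E] (hL : IsOM L) (hs : IsSimple L)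
    (hP : ∃ s : Finset (EuclideanSpace ℝ (Fin d)), P = convexHull ℝ (s : Set _))
    (φ : topeGraph L ≃g skeleton P) :
    ∃ v : {e // Flat φ e} → EuclideanSpace ℝ (Fin d), restr L (Flat φ) = arr v := by
  rcases subsingleton_or_nontrivial E with h | h
  · exact main_sub hL hs φ
  · exact main hL hs hP φ

end Pool.Agent.helper52.FC
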