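import Pool.Agent.helper52.FC.Defs

/-!
# Polytopes whose 1-skeleton is a tope graph, part 5: facts on oriented matroids
-/

set_option autoImplicit false

namespace Pool.Agent.helper52.FC

variable {E : Type}

theorem sneg {a b : SignType} (h : a = -b) (h' : a = b) : a = 0 := by
  subst h'
  revert h
  cases a <;> decide

theorem sne {a b : SignType} (ha : a ≠ 0) (hb : b ≠ 0) (h : a ≠ b) : a = -b := by
  revert ha hb h
  cases a <;> cases b <;> decide

theorem cmp_pos {X Y : E → SignType} {e : E} (h : X e = 0) : cmp X Y e = Y e := if_pos h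

theorem cmp_neg {X Y : E → SignType} {e : E} (h : X e ≠ 0) : cmp X Y e = X e := if_neg h

theorem le_cmp (X Y : E → SignType) : Le X (cmp X Y) := fun e => by
  by_cases h : X e = 0
  · exact Or.inl h
  · exact Or.inr (cmp_neg h).symm

/-- A maximal element has full support on the elements which are not loops. -/
theorem max_supp {L : Set (E → SignType)} (hL : IsOM L) {T : E → SignType} (hT : IsTope L T) {e : E}
    (he : ∃ X ∈ L, X e ≠ 0) : T e ≠ 0 := by
  obtain ⟨X, hX, hXe⟩ := he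
  intro h
  have h1 := hT.2 (cmp T X) (hL.comp T hT.1 X hX) (le_cmp T X)
  have h2 := congrFun h1 e
  rw [cmp_pos h, h] at h2
  exact hXe h2

theorem supp_max {L : Set (E → SignType)} {T : E → SignType} (hT : T ∈ L)
    (h : ∀ e, (∃ X ∈ L, X e ≠ 0) → T e ≠ 0) : IsTope L T := by
  refine ⟨hT, fun X hX hle => funext fun e => ?_⟩
  rcases hle e with h1 | h1
  · by_contra h2
    exact h e ⟨X, hX, fun h3 => h2 (h3.trans h1.symm)⟩ h1
  · exact h1.symm

theorem exists_tope [Finite E] {L : Set (E → SignType)} (hL : IsOM L) :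
    ∃ T, IsTope L T := by
  classical
  have := Fintype.ofFinite E
  have : Finite SignType := inferInstance
  obtain ⟨T, hT, hmax⟩ := Set.exists_max_image L (fun X => (Finset.univ.filter fun e => X e ≠ 0).card)
    (Set.toFinite L) ⟨_, hL.zero⟩
  refine ⟨T, hT, fun X hX hle => funext fun e => ?_⟩
  rcases hle e with h1 | h1
  · by_contra h2
    have h3 : X e ≠ 0 := fun h3 => h2 (h3.trans h1.symm)
    have h4 : (Finset.univ.filter fun e => T e ≠ 0) ⊂ (Finset.univ.filter fun e => X e ≠ 0) := by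
      rw [Finset.ssubset_iff_of_subset]
      · exact ⟨e, by simpa using h3, by simpa using h1⟩
      · intro f hf
        have hf' : T f ≠ 0 := by simpa using hf
        have : X f ≠ 0 := by
          rcases hle f with h5 | h5
          · exact absurd h5 hf'
          · rwa [← h5]
        simpa using this
    exact absurd (hmax X hX) (not_le.2 (Finset.card_lt_card h4))
  · exact h1.symm

theorem recon [Finite E] : ∀ (m : ℕ) {L : Set (E → SignType)} (_ : IsOM L) (X : E → SignType),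
    Nat.card {e // X e = 0 ∧ ∃ Y ∈ L, Y e ≠ 0} ≤ m →
    (∀ T, IsTope L T → cmp X T ∈ L) → X ∈ L := by
  intro m
  induction m with
  | zero =>
    intro L hL X hc hX
    obtain ⟨T, hT⟩ := exists_tope hL
    have h1 := hX T hT
    have h2 : cmp X T = X := by
      funext e
      by_cases h : X e = 0
      · rw [cmp_pos h]
        by_contra h3
        have h4 : T e ≠ 0 := fun h4 => h3 (h4.trans h.symm)
        have h5 : IsEmpty {e // X e = 0 ∧ ∃ Y ∈ L, Y e ≠ 0} := by
          rcases Nat.card_eq_zero.1 (Nat.le_zero.1 hc) with h6 | h6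
          · exact h6
          · exact absurd h6 (not_infinite_iff_finite.2 inferInstance)
        exact h5.false ⟨e, h, T, hT.1, h4⟩
      · exact cmp_neg h
    rwa [h2] at h1
  | succ m ih =>
    intro L hL X hc hX
    by_cases hne : Nonempty {e // X e = 0 ∧ ∃ Y ∈ L, Y e ≠ 0}
    swap
    · rw [not_nonempty_iff] at hne
      exact ih hL X (by rw [Nat.card_of_isEmpty]; exact Nat.zero_le _) hX
    obtain ⟨⟨e, hXe, he⟩⟩ := hne
    -- the contraction
    have hL' : IsOM {Y | Y ∈ L ∧ Y e = 0} := by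
      refine ⟨⟨hL.zero, rfl⟩, fun Y hY => ⟨hL.neg Y hY.1, by simp [hY.2]⟩, fun Y hY Z hZ =>
        ⟨hL.comp Y hY.1 Z hZ.1, by rw [cmp_pos hY.2]; exact hZ.2⟩, fun Y hY Z hZ f hf => ?_⟩
      obtain ⟨W, hW, hWf, hW'⟩ := hL.elim Y hY.1 Z hZ.1 f hf
      refine ⟨W, ⟨hW, ?_⟩, hWf, hW'⟩
      rw [hW' e (fun h => h.2 hY.2), cmp_pos hY.2]
      exact hZ.2
    -- the conclusion for the contraction
    have h2 : ∀ T, IsTope {Y | Y ∈ L ∧ Y e = 0} T → cmp X T ∈ {Y | Y ∈ L ∧ Y e = 0} := by
      intro T hT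
      obtain ⟨T0, hT0⟩ := exists_tope hL
      have hT0e := max_supp hL hT0 he
      have hA : IsTope L (cmp T T0) := by
        refine supp_max (hL.comp T hT.1.1 T0 hT0.1) fun f hf => ?_
        by_cases h : T f = 0
        · rw [cmp_pos h]
          exact max_supp hL hT0 hf
        · rwa [cmp_neg h]
      have hB : IsTope L (cmp T (fun e => -T0 e)) := by
        refine supp_max (hL.comp T hT.1.1 _ (hL.neg _ hT0.1)) fun f hf => ?_
        by_cases h : T f = 0
        · rw [cmp_pos h]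
          have := max_supp hL hT0 hf
          simpa using this
        · rwa [cmp_neg h]
      have hTe : T e = 0 := hT.1.2
      have hA' := hX _ hA
      have hB' := hX _ hB
      have hS : ∀ f, (X f = 0 ∧ T f = 0) ∨
          (cmp X (cmp T T0) f = cmp X T f ∧ cmp X (cmp T (fun e => -T0 e)) f = cmp X T f ∧
            cmp X T f ≠ 0) := by
        intro f
        by_cases h : X f = 0
        · by_cases h' : T f = 0
          · exact Or.inl ⟨h, h'⟩
          · refine Or.inr ⟨?_, ?_, ?_⟩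
            · rw [cmp_pos h, cmp_pos h, cmp_neg h']
            · rw [cmp_pos h, cmp_pos h, cmp_neg h']
            · rwa [cmp_pos h]
        · refine Or.inr ⟨?_, ?_, ?_⟩
          · rw [cmp_neg h, cmp_neg h]
          · rw [cmp_neg h, cmp_neg h]
          · rwa [cmp_neg h]
      obtain ⟨Z, hZ, hZe, hZ'⟩ := hL.elim _ hA' _ hB' e ⟨by
        rw [cmp_pos hXe, cmp_pos hTe, cmp_pos hXe, cmp_pos hTe]; simp, by
        rw [cmp_pos hXe, cmp_pos hTe]; exact hT0e⟩
      have h3 : Z = cmp X T := by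
        funext f
        rcases hS f with ⟨h4, h5⟩ | ⟨h4, h5, h6⟩
        · rw [cmp_pos h4, h5]
          have h7 := hT.2 (cmp T Z) ⟨hL.comp _ hT.1.1 _ hZ, by rw [cmp_pos hTe]; exact hZe⟩
            (le_cmp T Z)
          have h8 := congrFun h7 f
          rwa [cmp_pos h5, h5] at h8
        · rw [hZ' f, cmp_neg, h4]
          · rw [h4]; exact h6
          · rintro ⟨h7, h8⟩
            rw [h4, h5] at h7
            exact h6 (sneg h7 rfl)
      rw [← h3]
      exact ⟨hZ, hZe⟩
    -- the induction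
    have h3 : Nat.card {f // X f = 0 ∧ ∃ Y ∈ {Y | Y ∈ L ∧ Y e = 0}, Y f ≠ 0} ≤ m := by
      have h4 : Nat.card {f // X f = 0 ∧ ∃ Y ∈ {Y | Y ∈ L ∧ Y e = 0}, Y f ≠ 0} <
          Nat.card {e // X e = 0 ∧ ∃ Y ∈ L, Y e ≠ 0} := by
        have h5 : {f | X f = 0 ∧ ∃ Y ∈ {Y | Y ∈ L ∧ Y e = 0}, Y f ≠ 0} ⊂
            {e | X e = 0 ∧ ∃ Y ∈ L, Y e ≠ 0} := by
          refine ⟨?_, fun h => ?_⟩
          · rintro f ⟨h6, Y, h7, h8⟩
            exact ⟨h6, Y, h7.1, h8⟩
          · obtain ⟨_, Y, hY, hY'⟩ := h (show e ∈ {e | X e = 0 ∧ ∃ Y ∈ L, Y e ≠ 0} from ⟨hXe, he⟩)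
            exact hY' hY.2
        exact Set.ncard_lt_ncard h5 (Set.toFinite _)
      omega
    exact (ih hL' X h3 h2).1

theorem recon_sub [Finite E] {A B : Set (E → SignType)} (hA : IsOM A) (hB : IsOM B)
    (lB : ∀ e, ∃ X ∈ B, X e ≠ 0)
    (h : ∀ X : E → SignType, (∀ e, X e ≠ 0) → (X ∈ A ↔ X ∈ B)) : A ⊆ B := by
  intro X hX
  refine recon _ hB X le_rfl fun T hT => ?_
  have h1 : ∀ e, T e ≠ 0 := fun e => max_supp hB hT (lB e)
  have h2 : ∀ e, cmp X T e ≠ 0 := fun e => by
    by_cases h3 : X e = 0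
    · rw [cmp_pos h3]
      exact h1 e
    · rwa [cmp_neg h3]
  exact (h _ h2).1 (hA.comp X hX T ((h T h1).2 hT.1))

/-- Two oriented matroids without loops are equal if they have the same full vectors. -/
theorem recon_eq [Finite E] {A B : Set (E → SignType)} (hA : IsOM A) (hB : IsOM B)
    (lA : ∀ e, ∃ X ∈ A, X e ≠ 0) (lB : ∀ e, ∃ X ∈ B, X e ≠ 0)
    (h : ∀ X : E → SignType, (∀ e, X e ≠ 0) → (X ∈ A ↔ X ∈ B)) : A = B :=
  Set.Subset.antisymm (recon_sub hA hB lB h) (recon_sub hB hA lA fun X hX => (h X hX).symm)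

theorem restr_om {L : Set (E → SignType)} (hL : IsOM L) (F : E → Prop) : IsOM (restr L F) := by
  refine ⟨⟨_, hL.zero, fun _ => rfl⟩, ?_, ?_, ?_⟩
  · rintro Y ⟨X, hX, h⟩
    exact ⟨_, hL.neg X hX, fun e => congrArg (fun t => -t) (h e)⟩
  · rintro Y ⟨X, hX, h⟩ Y' ⟨X', hX', h'⟩
    refine ⟨_, hL.comp X hX X' hX', fun e => ?_⟩
    simp only [cmp, h, h']
  · rintro Y ⟨X, hX, h⟩ Y' ⟨X', hX', h'⟩ e he
    rw [h, h'] at he
    obtain ⟨Z, hZ, hZe, hZ'⟩ := hL.elim X hX X' hX' e.1 he
    refine ⟨fun e => Z e.1, ⟨Z, hZ, fun _ => rfl⟩, hZe, fun f hf => ?_⟩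
    rw [h, h'] at hf
    simp only [cmp, h, h']
    exact hZ' f.1 hf

theorem arr_om {d : ℕ} {F : Type} [Finite F] (v : F → EuclideanSpace ℝ (Fin d)) : IsOM (arr v) := by
  refine ⟨⟨0, fun e => by simp⟩, ?_, ?_, ?_⟩
  · rintro Y ⟨x, h⟩
    refine ⟨-x, fun e => ?_⟩
    change -Y e = _
    rw [h, inner_neg_right, Left.sign_neg]
  · rintro Y ⟨x, h⟩ Y' ⟨x', h'⟩
    obtain ⟨δ, hδ, hδ'⟩ : ∃ δ : ℝ, 0 < δ ∧ ∀ e, inner ℝ (v e) x ≠ 0 →
        |δ * inner ℝ (v e) x'| < |inner ℝ (v e) x| := by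
      have := Fintype.ofFinite F
      have h1 : ∀ e, ∀ᶠ δ : ℝ in nhdsWithin 0 (Set.Ioi 0), inner ℝ (v e) x ≠ 0 →
          |δ * inner ℝ (v e) x'| < |inner ℝ (v e) x| := by
        intro e
        by_cases h2 : inner ℝ (v e) x = 0
        · exact Filter.Eventually.of_forall fun δ h3 => absurd h2 h3
        · have h3 : Filter.Tendsto (fun δ : ℝ => |δ * inner ℝ (v e) x'|) (nhdsWithin 0 (Set.Ioi 0))
              (nhds |0 * inner ℝ (v e) x'|) := by
            refine Filter.Tendsto.mono_left ?_ nhdsWithin_le_nhds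
            exact (Continuous.tendsto (by fun_prop) 0)
          rw [zero_mul, abs_zero] at h3
          filter_upwards [h3.eventually (gt_mem_nhds (abs_pos.2 h2))] with δ h4 _ using h4
      have h2 := (Filter.eventually_all.2 h1).and self_mem_nhdsWithin
      obtain ⟨δ, h3, h4⟩ := h2.exists
      exact ⟨δ, h4, h3⟩
    refine ⟨x + δ • x', fun e => ?_⟩
    rw [inner_add_right, inner_smul_right]
    by_cases h1 : inner ℝ (v e) x = 0
    · rw [cmp_pos (by rw [h, h1, sign_zero]), h', h1, zero_add]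
      simp [sign_mul, sign_pos hδ]
    · rw [cmp_neg (by rw [h]; simpa using h1), h]
      have h2 := hδ' e h1
      have h3 := neg_abs_le (δ * inner ℝ (v e) x')
      have h4 := le_abs_self (δ * inner ℝ (v e) x')
      rcases lt_or_gt_of_ne h1 with h5 | h5
      · rw [abs_of_neg h5] at h2
        rw [sign_neg h5, sign_neg (by linarith)]
      · rw [abs_of_pos h5] at h2
        rw [sign_pos h5, sign_pos (by linarith)]
  · rintro Y ⟨x, h⟩ Y' ⟨x', h'⟩ e ⟨he, he'⟩
    rw [h, h'] at he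
    rw [h] at he'
    have h0 : inner ℝ (v e) x ≠ 0 := by simpa using he'
    have h0' : inner ℝ (v e) x' ≠ 0 := by
      intro h1
      rw [h1, sign_zero, neg_zero] at he
      exact he' he
    refine ⟨fun f => SignType.sign (inner ℝ (v f) (|inner ℝ (v e) x'| • x + |inner ℝ (v e) x| • x')),
      ⟨_, fun _ => rfl⟩, ?_, fun f hf => ?_⟩
    · change SignType.sign _ = 0
      rw [sign_eq_zero_iff, inner_add_right, inner_smul_right, inner_smul_right]
      rcases lt_or_gt_of_ne h0 with h1 | h1 <;> rcases lt_or_gt_of_ne h0' with h2 | h2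
      · rw [sign_neg h1, sign_neg h2] at he
        exact absurd he (by decide)
      · rw [abs_of_neg h1, abs_of_pos h2]
        ring
      · rw [abs_of_pos h1, abs_of_neg h2]
        ring
      · rw [sign_pos h1, sign_pos h2] at he
        exact absurd he (by decide)
    · change SignType.sign _ = _
      rw [h, h'] at hf
      rw [inner_add_right, inner_smul_right, inner_smul_right]
      have ha := abs_pos.2 h0
      have hb := abs_pos.2 h0'
      set a := inner ℝ (v f) x with ha'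
      set b := inner ℝ (v f) x' with hb'
      rcases lt_trichotomy a 0 with h1 | h1 | h1
      · rw [cmp_neg (by rw [h, ← ha', sign_neg h1]; decide), h, ← ha', sign_neg h1]
        refine sign_neg ?_
        have h2 : b ≤ 0 := by
          by_contra h2
          rw [not_le] at h2
          refine hf ⟨?_, ?_⟩
          · rw [sign_neg h1, sign_pos h2]
          · rw [sign_neg h1]; decide
        nlinarith [mul_pos_of_neg_of_neg (neg_neg_of_pos hb) h1, mul_nonneg ha.le (neg_nonneg.2 h2)]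
      · rw [cmp_pos (by rw [h, ← ha', h1, sign_zero]), h', ← hb', h1, mul_zero, zero_add, sign_mul,
          sign_pos ha, one_mul]
      · rw [cmp_neg (by rw [h, ← ha', sign_pos h1]; decide), h, ← ha', sign_pos h1]
        refine sign_pos ?_
        have h2 : 0 ≤ b := by
          by_contra h2
          rw [not_le] at h2
          refine hf ⟨?_, ?_⟩
          · rw [sign_pos h1, sign_neg h2]; rfl
          · rw [sign_pos h1]; decide
        nlinarith [mul_pos hb h1, mul_nonneg ha.le h2]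

/-! ### the topes of a simple oriented matroid -/

theorem tope_supp {L : Set (E → SignType)} (hL : IsOM L) (hs : IsSimple L) {T : E → SignType}
    (hT : IsTope L T) (e : E) : T e ≠ 0 := max_supp hL hT (hs.loop e)

theorem tope_of {L : Set (E → SignType)} {T : E → SignType} (hT : T ∈ L) (h : ∀ e, T e ≠ 0) :
    IsTope L T := supp_max hT fun e _ => h e

theorem tope_neg {L : Set (E → SignType)} (hL : IsOM L) (hs : IsSimple L) {T : E → SignType}
    (hT : IsTope L T) : IsTope L (fun e => -T e) :=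
  tope_of (hL.neg T hT.1) fun e => by simpa using tope_supp hL hs hT e

/-- For `e ≠ f` there is a covector which is zero at `e` and not at `f`. -/
theorem sep {L : Set (E → SignType)} (hL : IsOM L) (hs : IsSimple L) {e f : E} (hef : e ≠ f) :
    ∃ Z ∈ L, Z e = 0 ∧ Z f ≠ 0 := by
  by_contra hcon
  push Not at hcon
  have h1 : ∀ X ∈ L, ∀ Y ∈ L, (X e = -Y e ∧ X e ≠ 0) → X f = -Y f := by
    intro X hX Y hY h
    by_contra h2
    obtain ⟨Z, hZ, hZe, hZ'⟩ := hL.elim X hX Y hY e h
    have h3 := hZ' f (fun h4 => h2 h4.1)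
    rw [hcon Z hZ hZe] at h3
    by_cases h4 : X f = 0
    · rw [cmp_pos h4] at h3
      exact h2 (by rw [h4, ← h3, neg_zero])
    · rw [cmp_neg h4] at h3
      exact h4 h3.symm
  obtain ⟨X0, hX0, hX0e⟩ := hs.loop e
  obtain ⟨Y0, hY0, hY0f⟩ := hs.loop f
  have h2 : ∀ X ∈ L, X e ≠ 0 → X f ≠ 0 := by
    intro X hX hXe hXf
    have h3 : Y0 e ≠ 0 := fun h3 => hY0f (hcon Y0 hY0 h3)
    by_cases h4 : X e = -Y0 e
    · have h5 := h1 X hX Y0 hY0 ⟨h4, hXe⟩
      rw [hXf] at h5
      exact hY0f (by simpa using h5.symm)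
    · have h5 : X e = Y0 e := by
        by_contra h5
        exact h4 (sne hXe h3 h5)
      have h6 := h1 X hX _ (hL.neg _ hY0) ⟨by simpa using h5, hXe⟩
      rw [hXf] at h6
      exact hY0f (by simpa using h6.symm)
  have h3 : ∀ X ∈ L, X e ≠ 0 → (X e = X0 e → X f = X0 f) ∧ (X e ≠ X0 e → X e = -X0 e ∧ X f = -X0 f) := by
    intro X hX hXe
    refine ⟨fun h => ?_, fun h => ?_⟩
    · have := h1 X hX _ (hL.neg _ hX0) ⟨by simpa using h, hXe⟩
      simpa using this
    · have h4 := sne hXe hX0e h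
      exact ⟨h4, h1 X hX X0 hX0 ⟨h4, hXe⟩⟩
  by_cases h4 : X0 e = X0 f
  · obtain ⟨X, hX, hne⟩ := hs.par e f hef
    apply hne
    by_cases h5 : X e = 0
    · rw [h5, hcon X hX h5]
    · by_cases h6 : X e = X0 e
      · rw [h6, h4, (h3 X hX h5).1 h6]
      · obtain ⟨h7, h8⟩ := (h3 X hX h5).2 h6
        rw [h7, h8, h4]
  · have h4' := sne hX0e (h2 X0 hX0 hX0e) h4
    obtain ⟨X, hX, hne⟩ := hs.anti e f hef
    apply hne
    by_cases h5 : X e = 0
    · rw [h5, hcon X hX h5, neg_zero]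
    · by_cases h6 : X e = X0 e
      · rw [h6, h4', (h3 X hX h5).1 h6]
      · obtain ⟨h7, h8⟩ := (h3 X hX h5).2 h6
        rw [h7, h8, h4']

/-- For every `e` there are topes which differ in `e` only. -/
theorem exists_diff [Finite E] {L : Set (E → SignType)} (hL : IsOM L) (hs : IsSimple L) (e : E) :
    ∃ S T, IsTope L S ∧ IsTope L T ∧ DiffAt e S T := by
  classical
  have := Fintype.ofFinite E
  have h1 : ∀ s : Finset E, e ∉ s → ∃ Z ∈ L, Z e = 0 ∧ ∀ f ∈ s, Z f ≠ 0 := by
    intro s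
    induction s using Finset.induction_on with
    | empty => exact fun _ => ⟨_, hL.zero, rfl, by simp⟩
    | insert f s hf ih =>
      intro h
      rw [Finset.mem_insert, not_or] at h
      obtain ⟨Z, hZ, hZe, hZs⟩ := ih h.2
      obtain ⟨W, hW, hWe, hWf⟩ := sep hL hs h.1
      refine ⟨cmp Z W, hL.comp _ hZ _ hW, by rw [cmp_pos hZe, hWe], fun g hg => ?_⟩
      by_cases h2 : Z g = 0
      · rw [cmp_pos h2]
        rcases Finset.mem_insert.1 hg with h3 | h3
        · rw [h3]; exact hWf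
        · exact absurd h2 (hZs g h3)
      · rwa [cmp_neg h2]
  obtain ⟨Z, hZ, hZe, hZs⟩ := h1 (Finset.univ.erase e) (Finset.notMem_erase _ _)
  have hZ' : ∀ f, f ≠ e → Z f ≠ 0 := fun f hf => hZs f (Finset.mem_erase.2 ⟨hf, Finset.mem_univ _⟩)
  obtain ⟨X, hX, hXe⟩ := hs.loop e
  refine ⟨cmp Z X, cmp Z (fun e => -X e), tope_of (hL.comp _ hZ _ hX) fun f => ?_,
    tope_of (hL.comp _ hZ _ (hL.neg _ hX)) fun f => ?_, ?_, fun f hf => ?_⟩
  · by_cases hf : f = e
    · rw [hf, cmp_pos hZe]; exact hXe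
    · rw [cmp_neg (hZ' f hf)]; exact hZ' f hf
  · by_cases hf : f = e
    · rw [hf, cmp_pos hZe]; simpa using hXe
    · rw [cmp_neg (hZ' f hf)]; exact hZ' f hf
  · rw [cmp_pos hZe, cmp_pos hZe]
    exact fun h => hXe (sneg h.symm.symm rfl)
  · rw [cmp_neg (hZ' f hf), cmp_neg (hZ' f hf)]

end Pool.Agent.helper52.FC
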