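import Pool.Agent.helper52.FC.OM
import Pool.Agent.helper52.FC.Core

/-!
# Polytopes whose 1-skeleton is a tope graph, part 6: polytopes and vector configurations
-/

set_option autoImplicit false

namespace Pool.Agent.helper52.FC

/-- The vector of a vertex, in the cone over the polytope. -/
def pv {d : ℕ} {ι : Type} {P : Set (EuclideanSpace ℝ (Fin d))} (φ : ι → P.extremePoints ℝ) (i : ι) :
    EuclideanSpace ℝ (Fin d) × ℝ := ((φ i).1, 1)

section

variable {d : ℕ} {ι : Type} {P : Set (EuclideanSpace ℝ (Fin d))}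

theorem hull [Finite ι] (hP : ∃ s : Finset (EuclideanSpace ℝ (Fin d)), P = convexHull ℝ (s : Set _))
    (φ : ι ≃ P.extremePoints ℝ) : P = convexHull ℝ (Set.range fun i => (φ i).1) := by
  obtain ⟨s, hs⟩ := hP
  have hc : IsCompact P := by
    rw [hs]
    exact (Finset.finite_toSet s).isCompact_convexHull ℝ
  have hcv : Convex ℝ P := by
    rw [hs]
    exact convex_convexHull ℝ _
  have h1 := closure_convexHull_extremePoints hc hcv
  have h2 : P.extremePoints ℝ = Set.range fun i => (φ i).1 := by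
    ext x
    constructor
    · intro hx
      exact ⟨φ.symm ⟨x, hx⟩, by simp⟩
    · rintro ⟨i, rfl⟩
      exact (φ i).2
  rw [h2] at h1
  rw [((Set.finite_range _).isClosed_convexHull ℝ).closure_eq] at h1
  exact h1.symm

theorem vt [Finite ι] (hP : ∃ s : Finset (EuclideanSpace ℝ (Fin d)), P = convexHull ℝ (s : Set _))
    (φ : ι ≃ P.extremePoints ℝ) (i : ι) : ∃ c, Vt (pv φ) i c := by
  have hcv : Convex ℝ P := by
    obtain ⟨s, hs⟩ := hP
    rw [hs]
    exact convex_convexHull ℝ _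
  have h1 : (φ i).1 ∉ convexHull ℝ ((fun k => (φ k).1) '' {k | k ≠ i}) := by
    intro h
    have h2 := (hcv.mem_extremePoints_iff_mem_sdiff_convexHull_sdiff).1 (φ i).2
    apply h2.2
    refine convexHull_mono ?_ h
    rintro _ ⟨k, hk, rfl⟩
    refine ⟨(φ k).2.1, fun h3 => hk ?_⟩
    exact φ.injective (Subtype.ext h3)
  have h2 : IsClosed (convexHull ℝ ((fun k => (φ k).1) '' {k | k ≠ i})) :=
    ((Set.toFinite _).image _).isClosed_convexHull ℝ
  obtain ⟨f, u, h3, h4⟩ := geometric_hahn_banach_point_closed (convex_convexHull ℝ _) h2 h1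
  refine ⟨(f : EuclideanSpace ℝ (Fin d) →ₗ[ℝ] ℝ).comp (LinearMap.fst ℝ _ ℝ) -
    (f (φ i).1) • LinearMap.snd ℝ _ ℝ, ?_, fun k hk => ?_⟩
  · simp [pv]
  · have h5 := h4 _ (subset_convexHull ℝ _ ⟨k, hk, rfl⟩)
    simp only [pv, LinearMap.sub_apply, LinearMap.comp_apply, LinearMap.fst_apply,
      LinearMap.smul_apply, LinearMap.snd_apply, smul_eq_mul, mul_one]
    change 0 < f (φ k).1 - f (φ i).1
    change u < f (φ k).1 at h5
    linarith

theorem ed_of_adj (φ : ι ≃ P.extremePoints ℝ) {i j : ι} (h : (skeleton P).Adj (φ i) (φ j)) :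
    Ed (pv φ) i j := by
  obtain ⟨hne, hexp⟩ := h
  obtain ⟨l, hl⟩ := hexp ⟨_, left_mem_segment ℝ _ _⟩
  have hi : (φ i).1 ∈ segment ℝ (φ i).1 (φ j).1 := left_mem_segment ℝ _ _
  have hj : (φ j).1 ∈ segment ℝ (φ i).1 (φ j).1 := right_mem_segment ℝ _ _
  have hi' := hi
  have hj' := hj
  rw [hl] at hi' hj'
  refine ⟨fun h => hne (by rw [h]), (l (φ i).1) • LinearMap.snd ℝ _ ℝ -
    (l : EuclideanSpace ℝ (Fin d) →ₗ[ℝ] ℝ).comp (LinearMap.fst ℝ _ ℝ), ?_, ?_, fun k hki hkj => ?_⟩
  · simp [pv]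
  · have h1 := hi'.2 _ hj'.1
    have h2 := hj'.2 _ hi'.1
    simp only [pv, LinearMap.sub_apply, LinearMap.comp_apply, LinearMap.fst_apply,
      LinearMap.smul_apply, LinearMap.snd_apply, smul_eq_mul, mul_one]
    change l (φ i).1 - l (φ j).1 = 0
    linarith
  · have h1 := hi'.2 _ (φ k).2.1
    simp only [pv, LinearMap.sub_apply, LinearMap.comp_apply, LinearMap.fst_apply,
      LinearMap.smul_apply, LinearMap.snd_apply, smul_eq_mul, mul_one]
    change 0 < l (φ i).1 - l (φ k).1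
    by_contra h2
    rw [not_lt] at h2
    have h3 : (φ k).1 ∈ segment ℝ (φ i).1 (φ j).1 := by
      rw [hl]
      refine ⟨(φ k).2.1, fun y hy => ?_⟩
      have := hi'.2 y hy
      linarith
    rcases (mem_extremePoints_iff_forall_segment.1 (φ k).2).2 _ (φ i).2.1 _ (φ j).2.1 h3 with h4 | h4
    · exact hki (φ.injective (Subtype.ext h4)).symm
    · exact hkj (φ.injective (Subtype.ext h4)).symm

theorem adj_of_ed [Finite ι] (hP : ∃ s : Finset (EuclideanSpace ℝ (Fin d)), P = convexHull ℝ (s : Set _))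
    (φ : ι ≃ P.extremePoints ℝ) {i j : ι} (h : Ed (pv φ) i j) : (skeleton P).Adj (φ i) (φ j) := by
  classical
  obtain ⟨hne, c, hi, hj, hk⟩ := h
  have hcv : Convex ℝ P := by
    obtain ⟨s, hs⟩ := hP
    rw [hs]
    exact convex_convexHull ℝ _
  refine ⟨fun h => hne (φ.injective h), fun _ => ?_⟩
  -- the functional
  obtain ⟨f, b, hfb⟩ : ∃ (f : EuclideanSpace ℝ (Fin d) →ₗ[ℝ] ℝ) (b : ℝ), ∀ y, c (y, 1) = f y + b := by
    refine ⟨c.comp (LinearMap.inl ℝ _ ℝ), c (0, 1), fun y => ?_⟩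
    rw [LinearMap.comp_apply, LinearMap.inl_apply, ← map_add]
    simp
  have hi' : f (φ i).1 + b = 0 := by rw [← hfb]; exact hi
  have hj' : f (φ j).1 + b = 0 := by rw [← hfb]; exact hj
  have hk' : ∀ k, k ≠ i → k ≠ j → 0 < f (φ k).1 + b := fun k h1 h2 => by
    rw [← hfb]; exact hk k h1 h2
  have hk0 : ∀ k, 0 ≤ f (φ k).1 + b := by
    intro k
    by_cases h1 : k = i
    · rw [h1, hi']
    · by_cases h2 : k = j
      · rw [h2, hj']
      · exact (hk' k h1 h2).le
  have hP' := hull hP φ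
  -- the functional is nonnegative, and zero on the segment only
  have key : ∀ x ∈ P, 0 ≤ f x + b ∧ (f x + b = 0 → x ∈ segment ℝ (φ i).1 (φ j).1) := by
    intro x hx
    rw [hP', mem_convexHull_iff_exists_fintype] at hx
    obtain ⟨κ, _, w, z, hw, hw1, hz, hx⟩ := hx
    have h1 : f x + b = ∑ a, w a * (f (z a) + b) := by
      rw [← hx, map_sum]
      simp only [map_smul, smul_eq_mul, mul_add, Finset.sum_add_distrib, ← Finset.sum_mul]
      rw [hw1, one_mul]
    have h2 : ∀ a, 0 ≤ w a * (f (z a) + b) := by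
      intro a
      obtain ⟨k, hk⟩ := hz a
      rw [← hk]
      exact mul_nonneg (hw a) (hk0 k)
    refine ⟨h1 ▸ Finset.sum_nonneg fun a _ => h2 a, fun h3 => ?_⟩
    rw [h1] at h3
    have h4 := (Finset.sum_eq_zero_iff_of_nonneg fun a _ => h2 a).1 h3
    have h5 : ∀ a, w a ≠ 0 → z a ∈ segment ℝ (φ i).1 (φ j).1 := by
      intro a ha
      obtain ⟨k, hk⟩ := hz a
      have h6 := h4 a (Finset.mem_univ _)
      rcases mul_eq_zero.1 h6 with h7 | h7
      · exact absurd h7 ha
      · rw [← hk] at h7 ⊢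
        by_cases h8 : k = i
        · rw [h8]; exact left_mem_segment ℝ _ _
        · by_cases h9 : k = j
          · rw [h9]; exact right_mem_segment ℝ _ _
          · exact absurd h7 (hk' k h8 h9).ne'
    rw [← hx, ← Finset.sum_filter_of_ne (p := fun a => w a ≠ 0)]
    · refine (convex_segment _ _).sum_mem (fun a _ => hw a) ?_ fun a ha => h5 a (Finset.mem_filter.1 ha).2
      rw [Finset.sum_filter_of_ne, hw1]
      exact fun a _ h => h
    · intro a _ h h'
      exact h (by rw [h', zero_smul])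
  refine ⟨-(LinearMap.toContinuousLinearMap f), ?_⟩
  ext x
  constructor
  · intro hx
    have hfx : f x + b = 0 := by
      obtain ⟨s, t, hs, ht, hst, rfl⟩ := hx
      rw [map_add, map_smul, map_smul, smul_eq_mul, smul_eq_mul]
      have e1 : f (φ i).1 = -b := by linarith
      have e2 : f (φ j).1 = -b := by linarith
      rw [e1, e2]
      have e3 : t = 1 - s := by linarith
      rw [e3]; ring
    refine ⟨hcv.segment_subset (φ i).2.1 (φ j).2.1 hx, fun y hy => ?_⟩
    change -f y ≤ -f x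
    have := (key y hy).1
    linarith
  · rintro ⟨hx, hx'⟩
    refine (key x hx).2 ?_
    have h1 := hx' _ (φ i).2.1
    change -f (φ i).1 ≤ -f x at h1
    have h2 := (key x hx).1
    linarith

end

end Pool.Agent.helper52.FC
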